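import Mathlib

set_option autoImplicit false

namespace Pool.Agent.H.MP_b9302b_co

open Function

/-- strong starter -/
def SS (G : Type) [AddCommGroup G] : Prop :=
  ∃ (ι : Type) (x y : ι → G), Finite ι ∧ 2 * Nat.card ι + 1 = Nat.card G ∧
    Injective (Sum.elim x y) ∧ (∀ i, x i ≠ 0 ∧ y i ≠ 0) ∧
    Injective (Sum.elim (fun i => x i - y i) (fun i => y i - x i)) ∧
    Injective (fun i => x i + y i) ∧ ∀ i, x i + y i ≠ 0

/-- strong complete mapping -/
def SCM (G : Type) [AddCommGroup G] : Prop :=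
  ∃ θ : G → G, Injective θ ∧ Injective (fun h => h - θ h) ∧ Injective (fun h => h + θ h)

variable {G : Type} [AddCommGroup G]

theorem li {A B : Type} (H : AddSubgroup G) (u : A → G) (φ : A → H → H) (v : B → H)
    (hu : Injective fun a => (u a : G ⧸ H)) (hu0 : ∀ a, (u a : G ⧸ H) ≠ 0)
    (hφ : ∀ a, Injective (φ a)) (hv : Injective v) :
    Injective (Sum.elim (fun p : A × H => u p.1 + φ p.1 p.2) (fun b => (v b : G))) := by
  have z : ∀ h : H, ((h : G) : G ⧸ H) = 0 := fun h => (QuotientAddGroup.eq_zero_iff _).2 h.2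
  rintro (⟨a, h⟩ | b) (⟨a', h'⟩ | b') e <;> simp only [Sum.elim_inl, Sum.elim_inr] at e
  · have e1 := congrArg (fun g : G => (g : G ⧸ H)) e
    simp only [QuotientAddGroup.mk_add, z, add_zero] at e1
    obtain rfl := hu e1
    rw [hφ a (Subtype.ext (add_left_cancel e))]
  · have e1 := congrArg (fun g : G => (g : G ⧸ H)) e
    simp only [QuotientAddGroup.mk_add, z, add_zero] at e1
    exact absurd e1 (hu0 a)
  · have e1 := congrArg (fun g : G => (g : G ⧸ H)) e
    simp only [QuotientAddGroup.mk_add, z, add_zero] at e1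
    exact absurd e1.symm (hu0 a')
  · rw [hv (Subtype.ext e)]

def rx {A B C : Type} : ((A × C) ⊕ B) ⊕ ((A × C) ⊕ B) → ((A ⊕ A) × C) ⊕ (B ⊕ B)
  | .inl (.inl p) => .inl (.inl p.1, p.2)
  | .inr (.inl p) => .inl (.inr p.1, p.2)
  | .inl (.inr b) => .inr (.inl b)
  | .inr (.inr b) => .inr (.inr b)

theorem rx_inj {A B C : Type} : Injective (rx (A := A) (B := B) (C := C)) := by
  rintro ((⟨a, c⟩ | b) | (⟨a, c⟩ | b)) ((⟨a', c'⟩ | b') | (⟨a', c'⟩ | b')) e <;>
    simp_all [rx]

theorem ext [Finite G] (H : AddSubgroup G) (h1 : SS H) (h2 : SCM H) (h3 : SS (G ⧸ H)) : SS G := by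
  obtain ⟨κ, x', y', kf, kc, k1, k2, k3, k4, k5⟩ := h1
  obtain ⟨θ, t1, t2, t3⟩ := h2
  obtain ⟨ι, x, y, jf, jc, j1, j2, j3, j4, j5⟩ := h3
  have z : ∀ h : H, ((h : G) : G ⧸ H) = 0 := fun h => (QuotientAddGroup.eq_zero_iff _).2 h.2
  have hd : ∀ i, x i - y i ≠ 0 := fun i e => by
    have := @j1 (.inl i) (.inr i) (sub_eq_zero.1 e); simp at this
  refine ⟨(ι × H) ⊕ κ, Sum.elim (fun p => (x p.1).out + p.2) (fun b => x' b),
    Sum.elim (fun p => (y p.1).out + θ p.2) (fun b => y' b), inferInstance, ?_, ?_, ?_, ?_, ?_, ?_⟩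
  · rw [Nat.card_sum, Nat.card_prod, AddSubgroup.card_eq_card_quotient_mul_card_addSubgroup H,
      ← jc, ← kc]; ring
  · have := (li H (fun a => (Sum.elim x y a).out) (Sum.elim (fun _ h => h) (fun _ h => θ h))
      (Sum.elim x' y') (by simpa using j1) (by rintro (a | a) <;> simp [j2 a])
      (by rintro (a | a); exacts [injective_id, t1]) k1).comp rx_inj
    convert this using 1
    funext w; rcases w with ((p | b) | (p | b)) <;> rfl
  · rintro (⟨a, h⟩ | b)
    · constructor <;> intro e <;> have e1 := congrArg (fun g : G => (g : G ⧸ H)) e <;>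
        simp [z, j2 a] at e1
    · simpa using k2 b
  · have := (li H (Sum.elim (fun a => (x a).out - (y a).out) (fun a => (y a).out - (x a).out))
      (Sum.elim (fun _ h => h - θ h) (fun _ h => θ h - h))
      (Sum.elim (fun i => x' i - y' i) (fun i => y' i - x' i))
      (by convert j3 using 1; funext w; rcases w with a | a <;> simp)
      (by
        rintro (a | a)
        · simpa using hd a
        · have := hd a
          simpa [sub_eq_zero, eq_comm] using this)
      (by
        rintro (a | a)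
        · exact t2
        · intro h h' e
          apply t2
          have := congrArg Neg.neg e
          simpa using this) k3).comp rx_inj
    convert this using 1
    funext w; rcases w with ((p | b) | (p | b)) <;> simp [rx] <;> abel
  · have := li H (fun a => (x a).out + (y a).out) (fun _ h => h + θ h)
      (fun i => x' i + y' i) (by simpa using j4) (fun a => by simpa using j5 a) (fun _ => t3) k4
    convert this using 1
    funext w; rcases w with (p | b) <;> simp <;> abel
  · rintro (⟨a, h⟩ | b)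
    · intro e
      have e1 := congrArg (fun g : G => (g : G ⧸ H)) e
      simp [z, j5 a] at e1
    · have := k5 b
      simp only [Sum.elim_inr]
      exact_mod_cast this

theorem ss_list (P : List (G × G)) (h0 : 2 * P.length + 1 = Nat.card G)
    (h1 : (0 :: (P.map Prod.fst ++ P.map Prod.snd)).Nodup)
    (h2 : (P.map (fun p => p.1 - p.2) ++ P.map (fun p => p.2 - p.1)).Nodup)
    (h3 : (0 :: P.map (fun p => p.1 + p.2)).Nodup) : SS G := by
  have one : ∀ f : G × G → G, (P.map f).Nodup → Injective fun i : Fin P.length => f P[i] := by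
    intro f h i j e
    exact Fin.ext ((List.Nodup.getElem_inj_iff h (hi := by simp) (hj := by simp)).1 (by simpa using e))
  have two : ∀ f g : G × G → G, (P.map f ++ P.map g).Nodup →
      Injective (Sum.elim (fun i : Fin P.length => f P[i]) (fun i : Fin P.length => g P[i])) := by
    intro f g h
    rw [List.nodup_append] at h
    refine (one f h.1).sumElim (one g h.2.1) fun i j => ?_
    exact h.2.2 _ (List.mem_map_of_mem (List.getElem_mem _)) _
      (List.mem_map_of_mem (List.getElem_mem _))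
  rw [List.nodup_cons] at h1 h3
  refine ⟨Fin P.length, fun i => P[i].1, fun i => P[i].2, inferInstance, by simpa using h0,
    two _ _ h1.2, fun i => ⟨fun e => h1.1 ?_, fun e => h1.1 ?_⟩, two _ _ h2, one _ h3.2,
    fun i e => h3.1 ?_⟩
  · exact List.mem_append_left _ (e ▸ List.mem_map_of_mem (List.getElem_mem _))
  · exact List.mem_append_right _ (e ▸ List.mem_map_of_mem (List.getElem_mem _))
  · exact e ▸ List.mem_map_of_mem (f := fun p : G × G => p.1 + p.2) (List.getElem_mem _)

def dec : List (ℕ × G) → ℕ → G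
  | [], _ => 0
  | a :: L, e => (e % a.1) • a.2 + dec L (e / a.1)

def ad : List ℕ → ℕ → ℕ → ℕ
  | [], _, _ => 0
  | n :: M, a, b => (a + b) % n + n * ad M (a / n) (b / n)

def ng : List ℕ → ℕ → ℕ
  | [], _ => 0
  | n :: M, a => (n - a % n) % n + n * ng M (a / n)

def Gd (L : List (ℕ × G)) : Prop := ∀ a ∈ L, 1 < a.1 ∧ a.1 • a.2 = 0

theorem dec_cons {n : ℕ} {g : G} (h0 : 0 < n) (h : n • g = 0) (L : List (ℕ × G)) (c e : ℕ) :
    dec ((n, g) :: L) (c % n + n * e) = c • g + dec L e := by
  simp only [dec]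
  rw [Nat.add_mul_mod_self_left, Nat.add_mul_div_left _ _ h0, Nat.mod_mod,
    Nat.div_eq_of_lt (Nat.mod_lt _ h0), zero_add, ← nsmul_eq_mod_nsmul c h]

theorem cons_lt {n e N : ℕ} (h0 : 0 < n) (c : ℕ) (h : e < N) : c % n + n * e < n * N := by
  have := Nat.mod_lt c h0
  nlinarith

theorem Gd.tl {a : ℕ × G} {L : List (ℕ × G)} (h : Gd (a :: L)) : Gd L :=
  fun b hb => h b (List.mem_cons_of_mem _ hb)

theorem dec_zero : ∀ L : List (ℕ × G), dec L 0 = 0
  | [] => rfl
  | a :: L => by simp [dec, dec_zero L]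

theorem dec_ad : ∀ (L : List (ℕ × G)), Gd L → ∀ a b,
    dec L (ad (L.map Prod.fst) a b) = dec L a + dec L b ∧
      ad (L.map Prod.fst) a b < (L.map Prod.fst).prod
  | [], _, _, _ => by simp [dec, ad]
  | (n, g) :: L, h, a, b => by
    obtain ⟨h0, h1⟩ := h _ List.mem_cons_self
    have ih := dec_ad L h.tl (a / n) (b / n)
    simp only [List.map_cons, ad, List.prod_cons]
    refine ⟨?_, cons_lt (by omega) _ ih.2⟩
    rw [dec_cons (by omega) h1, ih.1]
    simp only [dec]
    rw [← nsmul_eq_mod_nsmul a h1, ← nsmul_eq_mod_nsmul b h1, add_nsmul]; abel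

theorem dec_ng : ∀ (L : List (ℕ × G)), Gd L → ∀ a,
    dec L (ng (L.map Prod.fst) a) = - dec L a ∧ ng (L.map Prod.fst) a < (L.map Prod.fst).prod
  | [], _, _ => by simp [dec, ng]
  | (n, g) :: L, h, a => by
    obtain ⟨h0, h1⟩ := h _ List.mem_cons_self
    have ih := dec_ng L h.tl (a / n)
    simp only [List.map_cons, ng, List.prod_cons]
    refine ⟨?_, cons_lt (by omega) _ ih.2⟩
    rw [dec_cons (by omega) h1, ih.1]
    simp only [dec]
    have : (n - a % n) • g + (a % n) • g = 0 := by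
      rw [← add_nsmul, Nat.sub_add_cancel (Nat.mod_lt _ (by omega)).le]; exact h1
    rw [eq_neg_of_add_eq_zero_left this]; abel

def Pres (L : List (ℕ × G)) : Prop :=
  Gd L ∧ AddSubgroup.closure {g | ∃ a ∈ L, a.2 = g} = ⊤ ∧ (L.map Prod.fst).prod = Nat.card G

theorem prod_pos : ∀ (L : List (ℕ × G)), Gd L → 0 < (L.map Prod.fst).prod
  | [], _ => by simp
  | a :: L, h => by
    have := (h _ List.mem_cons_self).1
    simp only [List.map_cons, List.prod_cons]
    exact Nat.mul_pos (by omega) (prod_pos L h.tl)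

theorem dec_gen : ∀ (L : List (ℕ × G)), Gd L → ∀ a ∈ L,
    ∃ e < (L.map Prod.fst).prod, dec L e = a.2
  | [], _, _, h => by simp at h
  | (n, g) :: L, h, a, ha => by
    obtain ⟨h0, h1⟩ := h _ List.mem_cons_self
    simp only [List.map_cons, List.prod_cons]
    rcases List.mem_cons.1 ha with rfl | ha
    · exact ⟨_, cons_lt (by omega) 1 (prod_pos L h.tl), by
        rw [dec_cons (by omega) h1, dec_zero]; simp⟩
    · obtain ⟨e, e1, e2⟩ := dec_gen L h.tl a ha
      exact ⟨_, cons_lt (by omega) 0 e1, by rw [dec_cons (by omega) h1, e2]; simp⟩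

theorem Pres.surj {L : List (ℕ × G)} (h : Pres L) (u : G) :
    ∃ e < (L.map Prod.fst).prod, dec L e = u := by
  have hu : u ∈ AddSubgroup.closure {g | ∃ a ∈ L, a.2 = g} := h.2.1 ▸ AddSubgroup.mem_top u
  induction hu using AddSubgroup.closure_induction with
  | mem x hx => obtain ⟨a, ha, rfl⟩ := hx; exact dec_gen L h.1 a ha
  | zero => exact ⟨0, prod_pos L h.1, dec_zero L⟩
  | add x y _ _ hx hy =>
    obtain ⟨a, -, rfl⟩ := hx
    obtain ⟨b, -, rfl⟩ := hy
    exact ⟨_, (dec_ad L h.1 a b).2, (dec_ad L h.1 a b).1⟩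
  | neg x _ hx =>
    obtain ⟨a, -, rfl⟩ := hx
    exact ⟨_, (dec_ng L h.1 a).2, (dec_ng L h.1 a).1⟩

theorem Pres.inj {L : List (ℕ × G)} (h : Pres L) {a b : ℕ} (ha : a < (L.map Prod.fst).prod)
    (hb : b < (L.map Prod.fst).prod) (e : dec L a = dec L b) : a = b := by
  have s : Surjective fun i : Fin (L.map Prod.fst).prod => dec L i := fun u => by
    obtain ⟨e, e1, e2⟩ := h.surj u; exact ⟨⟨e, e1⟩, e2⟩
  have := (Nat.bijective_iff_surjective_and_card _).2 ⟨s, by simp [h.2.2]⟩
  exact congrArg Fin.val (@this.1 ⟨a, ha⟩ ⟨b, hb⟩ e)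

theorem exists_pres (G : Type) [AddCommGroup G] [Finite G] :
    ∃ L : List (ℕ × G), Pres L ∧ (L.map Prod.fst).Pairwise (· ≤ ·) := by
  classical
  obtain ⟨ι, _, n, hn, ⟨e0⟩⟩ := AddCommGroup.equiv_directSum_zmod_of_finite' G
  let e := e0.trans (DirectSum.addEquivProd _)
  let f : ι → ℕ × G := fun i => (n i, e.symm (Pi.single i 1))
  let L0 := (Finset.univ : Finset ι).toList.map f
  let L := L0.mergeSort (fun a b => decide (a.1 ≤ b.1))
  have pm : L.Perm L0 := List.mergeSort_perm _ _
  have mem : ∀ a, a ∈ L ↔ ∃ i, f i = a := fun a => by rw [pm.mem_iff]; simp [L0]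
  refine ⟨L, ⟨fun a ha => ?_, ?_, ?_⟩, ?_⟩
  · obtain ⟨i, rfl⟩ := (mem a).1 ha
    refine ⟨hn i, ?_⟩
    simp only [f]
    rw [← map_nsmul, ← Pi.single_nsmul]; simp
  · rw [eq_top_iff]
    intro u _
    have : u = ∑ i, (e u i).val • e.symm (Pi.single i 1) := by
      apply e.injective
      rw [map_sum]
      funext j
      have : NeZero (n j) := ⟨by have := hn j; omega⟩
      simp only [map_nsmul, AddEquiv.apply_symm_apply, Finset.sum_apply, Pi.smul_apply]
      rw [Finset.sum_eq_single j (fun i _ hi => by simp [Pi.single_eq_of_ne hi.symm]) (by simp)]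
      simp
    rw [this]
    refine sum_mem fun i _ => nsmul_mem (AddSubgroup.subset_closure ?_) _
    exact ⟨f i, (mem _).2 ⟨i, rfl⟩, rfl⟩
  · rw [(pm.map _).prod_eq, Nat.card_congr e.toEquiv, Nat.card_pi]
    simp [L0, f, List.map_map, Function.comp_def]
  · rw [List.pairwise_map]
    have := List.pairwise_mergeSort (le := fun a b : ℕ × G => decide (a.1 ≤ b.1))
      (fun a b c => by simp only [decide_eq_true_eq]; omega)
      (fun a b => by simp only [Bool.or_eq_true, decide_eq_true_eq]; omega) L0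
    simpa using this

def nd (l : List ℕ) : ℕ → Bool :=
  List.rec (motive := fun _ => ℕ → Bool) (fun _ => true)
    (fun a _ ih m => !(Nat.testBit m a) && ih (Nat.lor m (Nat.shiftLeft 1 a))) l

theorem nd_spec : ∀ (l : List ℕ) (m : ℕ), nd l m = true →
    l.Nodup ∧ ∀ a ∈ l, Nat.testBit m a = false
  | [], _, _ => by simp
  | a :: l, m, h => by
    have h' : (!(Nat.testBit m a) && nd l (m ||| 1 <<< a)) = true := h
    simp only [Bool.and_eq_true, Bool.not_eq_true'] at h'
    obtain ⟨i1, i2⟩ := nd_spec l _ h'.2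
    simp only [Nat.testBit_or, Bool.or_eq_false_iff, Nat.one_shiftLeft] at i2
    refine ⟨List.nodup_cons.2 ⟨fun ha => ?_, i1⟩, fun b hb => ?_⟩
    · have := (i2 a ha).2; simp at this
    · rcases List.mem_cons.1 hb with rfl | hb
      exacts [h'.1, (i2 b hb).1]

theorem Pres.nodup {L : List (ℕ × G)} (h : Pres L) (l : List ℕ) (h1 : nd l 0 = true)
    (h2 : ∀ a ∈ l, a < (L.map Prod.fst).prod) : (l.map (dec L)).Nodup :=
  (nd_spec l 0 h1).1.map_on fun a ha b hb e => h.inj (h2 a ha) (h2 b hb) e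

def ck (M : List ℕ) (C : List (ℕ × ℕ)) : Bool :=
  Nat.beq (2 * C.length + 1) M.prod && C.all (fun p => Nat.blt p.1 M.prod && Nat.blt p.2 M.prod) &&
    nd (0 :: (C.map Prod.fst ++ C.map Prod.snd)) 0 &&
    nd (C.map (fun p => ad M p.1 (ng M p.2)) ++ C.map (fun p => ad M p.2 (ng M p.1))) 0 &&
    nd (0 :: C.map (fun p => ad M p.1 p.2)) 0

theorem ss_ck {L : List (ℕ × G)} (h : Pres L) (C : List (ℕ × ℕ))
    (hc : ck (L.map Prod.fst) C = true) : SS G := by
  simp only [ck, Bool.and_eq_true, Nat.beq_eq, List.all_eq_true, Nat.blt_eq] at hc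
  obtain ⟨⟨⟨⟨c0, c1⟩, c2⟩, c3⟩, c4⟩ := hc
  have p0 := prod_pos L h.1
  refine ss_list (C.map fun p => (dec L p.1, dec L p.2)) (by simpa [← h.2.2] using c0) ?_ ?_ ?_
  · have := h.nodup _ c2 (by
      simp only [List.mem_cons, List.mem_append, List.mem_map]
      rintro _ (rfl | ⟨p, hp, rfl⟩ | ⟨p, hp, rfl⟩)
      exacts [p0, (c1 p hp).1, (c1 p hp).2])
    simpa [dec_zero, Function.comp_def] using this
  · have := h.nodup _ c3 (by
      simp only [List.mem_append, List.mem_map]
      rintro _ (⟨p, hp, rfl⟩ | ⟨p, hp, rfl⟩) <;> exact (dec_ad L h.1 _ _).2)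
    simpa only [List.map_append, List.map_map, Function.comp_def, (dec_ad L h.1 _ _).1,
      (dec_ng L h.1 _).1, sub_eq_add_neg] using this
  · have := h.nodup _ c4 (by
      simp only [List.mem_cons, List.mem_map]
      rintro _ (rfl | ⟨p, hp, rfl⟩)
      exacts [p0, (dec_ad L h.1 _ _).2])
    simpa only [List.map_cons, List.map_map, Function.comp_def, (dec_ad L h.1 _ _).1,
      dec_zero] using this

def ckm (M : List ℕ) (T : List ℕ) : Bool :=
  T.all (fun p => Nat.blt p M.prod) && Nat.beq T.length M.prod && nd T 0 &&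
    nd ((List.range M.prod).map fun i => ad M i (ng M (T.getD i 0))) 0 &&
    nd ((List.range M.prod).map fun i => ad M i (T.getD i 0)) 0

theorem scm_ck {L : List (ℕ × G)} (h : Pres L) (T : List ℕ)
    (hc : ckm (L.map Prod.fst) T = true) : SCM G := by
  simp only [ckm, Bool.and_eq_true, Nat.beq_eq, List.all_eq_true, Nat.blt_eq] at hc
  obtain ⟨⟨⟨⟨c0, c1⟩, c2⟩, c3⟩, c4⟩ := hc
  choose c hc1 hc2 using h.surj
  have key : ∀ (F : ℕ → ℕ), nd ((List.range (L.map Prod.fst).prod).map F) 0 = true →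
      (∀ i < (L.map Prod.fst).prod, F i < (L.map Prod.fst).prod) →
      Injective fun u => dec L (F (c u)) := by
    intro F h1 h2 u v e
    have := List.inj_on_of_nodup_map (nd_spec _ _ h1).1 (List.mem_range.2 (hc1 u))
      (List.mem_range.2 (hc1 v)) (h.inj (h2 _ (hc1 u)) (h2 _ (hc1 v)) e)
    rw [← hc2 u, this, hc2]
  refine ⟨fun u => dec L (T.getD (c u) 0), key (fun i => T.getD i 0) ?_ fun i hi => ?_, ?_, ?_⟩
  · convert c2 using 2
    rw [← c1]
    apply List.ext_getElem (by simp)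
    intro i h1 h2
    simp [List.getElem?_eq_getElem h2]
  · rw [List.getD_eq_getElem _ _ (c1 ▸ hi)]
    exact c0 _ (List.getElem_mem _)
  · have := key _ c3 fun i _ => (dec_ad L h.1 _ _).2
    simpa only [(dec_ad L h.1 _ _).1, (dec_ng L h.1 _).1, hc2, sub_eq_add_neg] using this
  · have := key _ c4 fun i _ => (dec_ad L h.1 _ _).2
    simpa only [(dec_ad L h.1 _ _).1, hc2] using this

end Pool.Agent.H.MP_b9302b_co
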