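import Pool.Agent.H.MP_b9302b_co.A

set_option autoImplicit false

namespace Pool.Agent.H.MP_b9302b_co

open Function

abbrev Af := ℤ × ℤ
def ev (t : ℕ) (a : Af) : ℤ := a.1 * t + a.2
def nn (a : Af) : Bool := decide (0 ≤ a.1) && decide (0 ≤ a.2)
def pl (a : Af) (c : ℤ) (b : Af) : Af := (a.1 + c * b.1, a.2 + c * b.2)

theorem ev_pl (t : ℕ) (a b : Af) (c : ℤ) : ev t (pl a c b) = ev t a + c * ev t b := by
  simp only [ev, pl]; ring

theorem ev_one (t : ℕ) : ev t (0, 1) = 1 := by simp [ev]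

theorem nn_ev {a : Af} (h : nn a = true) (t : ℕ) : 0 ≤ ev t a := by
  simp only [nn, Bool.and_eq_true, decide_eq_true_eq] at h
  have := h.1; have := h.2
  simp only [ev]; positivity

def lt (a b : Af) : Bool := nn (pl (pl b (-1) a) (-1) (0, 1))

theorem lt_ev {a b : Af} (h : lt a b = true) (t : ℕ) : ev t a < ev t b := by
  have := nn_ev h t
  simp only [ev_pl, ev_one] at this; omega

/-- start, step, length, fibre codes -/
abbrev It := Af × ℤ × Af × List ℕ

def en (i : It) : Af := pl i.1 i.2.1 (pl i.2.2.1 (-1) (0, 1))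
def lo (i : It) : Af := if 0 ≤ i.2.1 then i.1 else en i
def hi (i : It) : Af := if 0 ≤ i.2.1 then en i else i.1
def inr (n : Af) (i : It) : Bool := nn (lo i) && lt (hi i) n
def sh (n : Af) (k : ℤ) (i : It) : It := (pl i.1 k n, i.2)
def nrm (n : Af) (i : It) : It :=
  if inr n i then i else if inr n (sh n 1 i) then sh n 1 i else sh n (-1) i
def ok (n : Af) (N : ℕ) (i : It) : Bool :=
  inr n i && (decide (i.2.1 ≠ 0) || decide (i.2.2.1 = (0, 1))) && nd i.2.2.2 0 &&
    i.2.2.2.all (fun h => Nat.blt h N)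
def dis (i j : It) : Bool :=
  lt (hi i) (lo j) || lt (hi j) (lo i) ||
    decide ((i.1.2 - j.1.2) % (Int.gcd (Int.gcd i.2.1 j.2.1) (i.1.1 - j.1.1)) ≠ 0) ||
    nd (i.2.2.2 ++ j.2.2.2) 0
def pw : List It → Bool
  | [] => true
  | a :: l => l.all (dis a) && pw l

theorem bd (t : ℕ) (i : It) (j : ℕ) (hj : j < (ev t i.2.2.1).toNat) :
    ev t (lo i) ≤ ev t i.1 + i.2.1 * j ∧ ev t i.1 + i.2.1 * j ≤ ev t (hi i) := by
  have h1 : (j : ℤ) ≤ ev t i.2.2.1 - 1 := by omega
  have h0 : (0 : ℤ) ≤ j := by omega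
  simp only [lo, hi, en]
  split_ifs with h <;> simp only [ev_pl, ev_one] <;> constructor <;> nlinarith

variable {G : Type} [AddCommGroup G]

def ex (w : G) (L : List (ℕ × G)) (t : ℕ) (i : It) : List G :=
  (List.range (ev t i.2.2.1).toNat).flatMap fun j : ℕ =>
    i.2.2.2.map fun h => (ev t i.1 + i.2.1 * j) • w + dec L h

theorem ex_nrm {m : ℕ} {w : G} (hw : m • w = 0) (L : List (ℕ × G)) (t : ℕ) (n : Af)
    (hn : ev t n = m) (i : It) : ex w L t (nrm n i) = ex w L t i := by
  have : ∀ k, ex w L t (sh n k i) = ex w L t i := fun k => by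
    simp only [ex, sh, ev_pl, hn]
    congr 1; funext j; congr 1; funext h
    rw [show ev t i.1 + k * m + i.2.1 * j = ev t i.1 + i.2.1 * j + k * m by ring, add_zsmul,
      mul_zsmul, natCast_zsmul, hw]; simp
  simp only [nrm]
  split_ifs <;> simp [this]

theorem el_inj {m : ℕ} {w : G} {L : List (ℕ × G)} (hp : Pres ((m, w) :: L)) {a b : ℤ} {h k : ℕ}
    (a0 : 0 ≤ a) (a1 : a < m) (b0 : 0 ≤ b) (b1 : b < m) (h1 : h < (L.map Prod.fst).prod)
    (k1 : k < (L.map Prod.fst).prod) (e : a • w + dec L h = b • w + dec L k) : a = b ∧ h = k := by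
  lift a to ℕ using a0
  lift b to ℕ using b0
  obtain ⟨m0, m1⟩ := hp.1 _ List.mem_cons_self
  simp only at m0 m1
  rw [natCast_zsmul, natCast_zsmul, ← dec_cons (by omega) m1, ← dec_cons (by omega) m1] at e
  have := hp.inj (cons_lt (by omega) a h1) (cons_lt (by omega) b k1) e
  rw [Nat.mod_eq_of_lt (by omega), Nat.mod_eq_of_lt (by omega)] at this
  have e1 := congrArg (· % m) this
  simp only [Nat.add_mul_mod_self_left] at e1
  rw [Nat.mod_eq_of_lt (by omega), Nat.mod_eq_of_lt (by omega)] at e1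
  subst e1
  exact ⟨rfl, Nat.eq_of_mul_eq_mul_left (by omega) (Nat.add_left_cancel this)⟩

theorem nodup_ex {m : ℕ} {w : G} {L : List (ℕ × G)} (hp : Pres ((m, w) :: L)) (t : ℕ) (n : Af)
    (hn : ev t n = m) (l : List It) (h1 : l.all (ok n (L.map Prod.fst).prod) = true)
    (h2 : pw l = true) : (l.flatMap (ex w L t)).Nodup := by
  have rg : ∀ i, ok n (L.map Prod.fst).prod i = true → (∀ j < (ev t i.2.2.1).toNat,
      0 ≤ ev t i.1 + i.2.1 * j ∧ ev t i.1 + i.2.1 * j < m) ∧
      (∀ h ∈ i.2.2.2, h < (L.map Prod.fst).prod) ∧ i.2.2.2.Nodup ∧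
      (i.2.1 ≠ 0 ∨ i.2.2.1 = (0, 1)) := by
    intro i hi
    simp only [ok, inr, Bool.and_eq_true, Bool.or_eq_true, decide_eq_true_eq, List.all_eq_true,
      Nat.blt_eq] at hi
    refine ⟨fun j hj => ?_, hi.2, (nd_spec _ _ hi.1.2).1, hi.1.1.2⟩
    have := bd t i j hj
    have := nn_ev hi.1.1.1.1 t
    have := lt_ev hi.1.1.1.2 t
    omega
  induction l with
  | nil => simp
  | cons a l ih =>
    simp only [List.all_cons, pw, Bool.and_eq_true] at h1 h2
    obtain ⟨r1, r2, r3, r4⟩ := rg a h1.1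
    rw [List.flatMap_cons, List.nodup_append]
    refine ⟨?_, ih h1.2 h2.2, ?_⟩
    · rw [ex, List.nodup_flatMap]
      refine ⟨fun j hj => r3.map_on fun h hh k hk e => ?_, ?_⟩
      · have := r1 j (List.mem_range.1 hj)
        exact (el_inj hp this.1 this.2 this.1 this.2 (r2 h hh) (r2 k hk) e).2
      · refine List.nodup_range.imp_of_mem fun {j k} hj hk hjk => ?_
        simp only [Function.onFun, List.disjoint_left, List.mem_map]
        rintro _ ⟨h, hh, rfl⟩ ⟨h', hh', e⟩
        rw [List.mem_range] at hj hk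
        have := (el_inj hp (r1 k hk).1 (r1 k hk).2 (r1 j hj).1 (r1 j hj).2 (r2 _ hh') (r2 _ hh) e).1
        rcases r4 with r4 | r4
        · exact hjk (by exact_mod_cast (mul_left_cancel₀ r4 (add_left_cancel this)).symm)
        · rw [r4, ev_one] at hj hk; omega
    · intro u hu v hv e
      subst e
      obtain ⟨b, hb, hv⟩ := List.mem_flatMap.1 hv
      obtain ⟨s1, s2, -, -⟩ := rg b (List.all_eq_true.1 h1.2 b hb)
      have hd := List.all_eq_true.1 h2.1 b hb
      simp only [ex, List.mem_flatMap, List.mem_map, List.mem_range] at hu hv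
      obtain ⟨j, hj, h, hh, rfl⟩ := hu
      obtain ⟨k, hk, h', hh', e⟩ := hv
      obtain ⟨e1, rfl⟩ :=
        el_inj hp (s1 k hk).1 (s1 k hk).2 (r1 j hj).1 (r1 j hj).2 (s2 _ hh') (r2 _ hh) e
      have b1 := bd t a j hj
      have b2 := bd t b k hk
      simp only [dis, Bool.or_eq_true, decide_eq_true_eq] at hd
      rcases hd with ((hd | hd) | hd) | hd
      · have := lt_ev hd t; omega
      · have := lt_ev hd t; omega
      · apply hd
        apply Int.emod_eq_zero_of_dvd
        have d1 := (Int.gcd_dvd_left (a.2.1.gcd b.2.1) (a.1.1 - b.1.1))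
        have d2 := (Int.gcd_dvd_right (a.2.1.gcd b.2.1) (a.1.1 - b.1.1))
        have : a.1.2 - b.1.2 = b.2.1 * k - a.2.1 * j - (a.1.1 - b.1.1) * t := by
          simp only [ev] at e1; linarith
        rw [this]
        exact dvd_sub (dvd_sub ((d1.trans (Int.gcd_dvd_right _ _)).mul_right _)
          ((d1.trans (Int.gcd_dvd_left _ _)).mul_right _)) (d2.mul_right _)
      · exact (List.nodup_append.1 (nd_spec _ _ hd).1).2.2 _ hh _ hh' rfl

/-- x, y, step of x, step of y, length, fibre pairs -/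
abbrev Sg := Af × Af × ℤ × ℤ × Af × List (ℕ × ℕ)

def iX (s : Sg) : It := (s.1, s.2.2.1, s.2.2.2.2.1, s.2.2.2.2.2.map Prod.fst)
def iY (s : Sg) : It := (s.2.1, s.2.2.2.1, s.2.2.2.2.1, s.2.2.2.2.2.map Prod.snd)
def iD (M : List ℕ) (s : Sg) : It := (pl s.1 (-1) s.2.1, s.2.2.1 - s.2.2.2.1, s.2.2.2.2.1,
  s.2.2.2.2.2.map fun p => ad M p.1 (ng M p.2))
def iE (M : List ℕ) (s : Sg) : It := (pl s.2.1 (-1) s.1, s.2.2.2.1 - s.2.2.1, s.2.2.2.2.1,
  s.2.2.2.2.2.map fun p => ad M p.2 (ng M p.1))
def iS (M : List ℕ) (s : Sg) : It := (pl s.1 1 s.2.1, s.2.2.1 + s.2.2.2.1, s.2.2.2.2.1,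
  s.2.2.2.2.2.map fun p => ad M p.1 p.2)
def i0 : It := ((0, 0), 0, (0, 1), [0])
def tot : List Sg → Af
  | [] => (0, 0)
  | s :: l => pl (tot l) s.2.2.2.2.2.length s.2.2.2.2.1
def sys (n : Af) (N : ℕ) (l : List It) : Bool :=
  (fun l' : List It => l'.all (ok n N) && pw l') (l.map (nrm n))
def cka (n : Af) (M : List ℕ) (C : List Sg) : Bool :=
  C.all (fun s => nn s.2.2.2.2.1) && decide (pl (0, 1) 2 (tot C) = pl (0, 0) M.prod n) &&
    sys n M.prod (i0 :: (C.map iX ++ C.map iY)) && sys n M.prod (C.map (iD M) ++ C.map (iE M)) &&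
    sys n M.prod (i0 :: C.map (iS M))

theorem ss_cka {m : ℕ} {w : G} {L : List (ℕ × G)} (hp : Pres ((m, w) :: L)) (t : ℕ) (n : Af)
    (hn : ev t n = m) (C : List Sg) (hc : cka n (L.map Prod.fst) C = true) : SS G := by
  simp only [cka, Bool.and_eq_true, List.all_eq_true, decide_eq_true_eq] at hc
  obtain ⟨⟨⟨⟨c0, c1⟩, c2⟩, c3⟩, c4⟩ := hc
  have sy : ∀ l, sys n (L.map Prod.fst).prod l = true → (l.flatMap (ex w L t)).Nodup := by
    intro l h
    simp only [sys, Bool.and_eq_true] at h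
    have := nodup_ex hp t n hn _ h.1 h.2
    simpa only [List.flatMap_map, ex_nrm (hp.1 _ List.mem_cons_self).2 L t n hn] using this
  let pr : Sg → List (G × G) := fun s =>
    (List.range (ev t s.2.2.2.2.1).toNat).flatMap fun j : ℕ => s.2.2.2.2.2.map fun p =>
      ((ev t s.1 + s.2.2.1 * j) • w + dec L p.1, (ev t s.2.1 + s.2.2.2.1 * j) • w + dec L p.2)
  have z : ex w L t i0 = [0] := by simp [ex, i0, ev, dec_zero]
  have gL := hp.1.tl
  have len : ∀ C : List Sg, (∀ s ∈ C, nn s.2.2.2.2.1 = true) →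
      ((C.flatMap pr).length : ℤ) = ev t (tot C) := by
    intro C h
    induction C with
    | nil => simp [tot, ev]
    | cons s C ih =>
      have := nn_ev (h s List.mem_cons_self) t
      rw [List.flatMap_cons, List.length_append, tot, ev_pl, Nat.cast_add,
        ih fun s hs => h s (List.mem_cons_of_mem _ hs)]
      simp [pr, List.length_flatMap, max_eq_left this]; ring
  refine ss_list (C.flatMap pr) ?_ ?_ ?_ ?_
  · have := congrArg (ev t) c1
    rw [ev_pl, ev_pl, ← len C c0, hn, ev_one] at this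
    have h2 := hp.2.2
    simp only [List.map_cons, List.prod_cons] at h2
    rw [← h2]
    simp only [ev] at this
    apply Nat.cast_injective (R := ℤ)
    rw [Nat.cast_add, Nat.cast_mul, Nat.cast_mul]
    simp only [Nat.cast_ofNat, Nat.cast_one]; linarith
  · have := sy _ c2
    simp only [List.flatMap_cons, z, List.singleton_append] at this
    simpa only [List.flatMap_append, List.flatMap_map, List.map_flatMap,
      List.map_map, pr, ex, iX, iY, Function.comp_def] using this
  · have := sy _ c3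
    simp only [List.flatMap_append, List.flatMap_map, ex, iD, iE, List.map_map, Function.comp_def,
      (dec_ad L gL _ _).1, (dec_ng L gL _).1, ev_pl] at this
    simp only [List.map_flatMap, List.map_map, pr, Function.comp_def]
    convert this using 8 <;> module
  · have := sy _ c4
    simp only [List.flatMap_cons, z, List.singleton_append] at this
    simp only [List.flatMap_map, ex, iS, List.map_map, Function.comp_def,
      (dec_ad L gL _ _).1, ev_pl] at this
    simp only [List.map_flatMap, List.map_map, pr, Function.comp_def]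
    convert this using 8; module

end Pool.Agent.H.MP_b9302b_co
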