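import Pool.Agent.H.MP_b9302b_co.B

set_option autoImplicit false

namespace Pool.Agent.H.MP_b9302b_co

def h1 : List (ℕ × ℕ) := [(0,0)]
def h9 : List (ℕ × ℕ) := [(0,0),(1,3),(2,6),(3,2),(4,5),(5,8),(6,1),(7,4),(8,7)]

def c1 : List Sg := [
  ((4,19),(4,10),1,-2,(2,5),h1),
  ((6,27),(24,94),1,-2,(2,2),h1),
  ((8,29),(20,90),1,-2,(0,2),h1),
  ((8,35),(20,78),1,-2,(3,10),h1),
  ((11,46),(14,56),1,-2,(1,2),h1),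
  ((0,1),(24,93),2,-4,(2,8),h1),
  ((12,53),(24,91),2,-4,(2,6),h1),
  ((4,12),(16,67),0,0,(0,1),h1),
  ((4,14),(4,18),0,0,(0,1),h1),
  ((4,16),(4,17),0,0,(0,1),h1),
  ((6,24),(6,26),0,0,(0,1),h1),
  ((6,25),(12,49),0,0,(0,1),h1),
  ((8,31),(14,58),0,0,(0,1),h1),
  ((8,32),(11,45),0,0,(0,1),h1),
  ((8,33),(20,84),0,0,(0,1),h1),
  ((8,34),(20,82),0,0,(0,1),h1),
  ((12,48),(12,51),0,0,(0,1),h1),
  ((12,50),(24,95),0,0,(0,1),h1),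
  ((12,52),(24,96),0,0,(0,1),h1),
  ((20,80),(20,86),0,0,(0,1),h1)]
theorem c1_ok : cka (24, 97) [] c1 = true := by decide +kernel

def c3 : List Sg := [
  ((4,16),(4,17),0,0,(0,1),h1),
  ((4,18),(4,13),1,-2,(1,3),h1),
  ((5,22),(2,5),1,-2,(1,2),h1),
  ((6,28),(24,95),1,-2,(2,2),h1),
  ((8,30),(20,91),1,-2,(0,3),h1),
  ((8,34),(20,83),0,0,(0,1),h1),
  ((8,36),(20,79),1,-2,(4,13),h1),
  ((24,97),(0,1),0,0,(0,1),h1),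
  ((0,2),(24,92),2,-4,(2,6),h1),
  ((12,50),(24,98),2,-4,(2,8),h1),
  ((2,7),(8,33),0,0,(0,1),h1),
  ((4,14),(16,66),0,0,(0,1),h1),
  ((4,15),(16,68),0,0,(0,1),h1),
  ((5,21),(8,35),0,0,(0,1),h1),
  ((6,24),(12,53),0,0,(0,1),h1),
  ((6,25),(6,27),0,0,(0,1),h1),
  ((6,26),(12,49),0,0,(0,1),h1),
  ((12,51),(24,96),0,0,(0,1),h1),
  ((20,81),(20,85),0,0,(0,1),h1)]
theorem c3_ok : cka (24, 99) [] c3 = true := by decide +kernel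

def c5 : List Sg := [
  ((4,19),(4,10),1,-2,(1,1),h1),
  ((5,23),(2,2),1,-2,(1,1),h1),
  ((6,24),(24,98),1,-2,(2,5),h1),
  ((8,38),(20,78),1,-2,(3,8),h1),
  ((11,48),(14,58),1,-2,(1,2),h1),
  ((0,3),(24,99),0,0,(0,1),h1),
  ((0,5),(24,95),2,-4,(2,6),h1),
  ((12,55),(24,93),2,-4,(2,5),h1),
  ((0,1),(12,51),0,0,(0,1),h1),
  ((2,4),(14,60),0,0,(0,1),h1),
  ((2,6),(8,30),0,0,(0,1),h1),
  ((2,8),(14,62),0,0,(0,1),h1),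
  ((4,12),(16,69),0,0,(0,1),h1),
  ((4,14),(16,73),0,0,(0,1),h1),
  ((4,16),(4,17),0,0,(0,1),h1),
  ((4,18),(16,67),0,0,(0,1),h1),
  ((5,20),(8,35),0,0,(0,1),h1),
  ((5,21),(8,37),0,0,(0,1),h1),
  ((5,22),(8,34),0,0,(0,1),h1),
  ((8,29),(11,47),0,0,(0,1),h1),
  ((8,31),(20,86),0,0,(0,1),h1),
  ((8,32),(8,36),0,0,(0,1),h1),
  ((8,33),(11,46),0,0,(0,1),h1),
  ((12,50),(12,53),0,0,(0,1),h1),
  ((12,52),(24,100),0,0,(0,1),h1),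
  ((12,54),(24,97),0,0,(0,1),h1),
  ((16,65),(16,71),0,0,(0,1),h1),
  ((20,80),(20,88),0,0,(0,1),h1),
  ((20,82),(20,84),0,0,(0,1),h1)]
theorem c5_ok : cka (24, 101) [] c5 = true := by decide +kernel

def c7 : List Sg := [
  ((4,18),(4,13),1,-2,(1,3),h1),
  ((5,22),(2,5),1,-2,(1,3),h1),
  ((6,26),(24,97),1,-2,(2,4),h1),
  ((8,39),(20,79),1,-2,(4,11),h1),
  ((0,2),(24,96),2,-4,(2,8),h1),
  ((12,56),(24,98),2,-4,(2,6),h1),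
  ((2,7),(8,33),0,0,(0,1),h1),
  ((4,15),(16,74),0,0,(0,1),h1),
  ((4,17),(16,70),0,0,(0,1),h1),
  ((5,21),(8,35),0,0,(0,1),h1),
  ((6,25),(12,54),0,0,(0,1),h1),
  ((8,30),(8,37),0,0,(0,1),h1),
  ((8,31),(8,34),0,0,(0,1),h1),
  ((8,32),(20,87),0,0,(0,1),h1),
  ((8,36),(8,38),0,0,(0,1),h1),
  ((12,50),(12,51),0,0,(0,1),h1),
  ((12,52),(24,99),0,0,(0,1),h1),
  ((12,53),(24,102),0,0,(0,1),h1),
  ((12,55),(24,101),0,0,(0,1),h1),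
  ((12,57),(24,100),0,0,(0,1),h1),
  ((20,81),(20,85),0,0,(0,1),h1),
  ((20,83),(20,89),0,0,(0,1),h1)]
theorem c7_ok : cka (24, 103) [] c7 = true := by decide +kernel

def c9 : List Sg := [
  ((4,20),(4,9),1,-2,(1,2),h1),
  ((5,23),(2,3),1,-2,(1,2),h1),
  ((6,27),(24,97),1,-2,(2,4),h1),
  ((8,40),(20,79),1,-2,(4,11),h1),
  ((0,2),(24,100),2,-4,(2,7),h1),
  ((12,58),(24,98),2,-4,(2,6),h1),
  ((2,5),(8,37),0,0,(0,1),h1),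
  ((4,11),(16,74),0,0,(0,1),h1),
  ((4,13),(4,17),0,0,(0,1),h1),
  ((4,15),(16,72),0,0,(0,1),h1),
  ((4,16),(4,19),0,0,(0,1),h1),
  ((4,18),(16,70),0,0,(0,1),h1),
  ((5,22),(8,39),0,0,(0,1),h1),
  ((6,25),(12,51),0,0,(0,1),h1),
  ((6,26),(12,55),0,0,(0,1),h1),
  ((8,31),(8,36),0,0,(0,1),h1),
  ((8,32),(8,38),0,0,(0,1),h1),
  ((8,33),(20,87),0,0,(0,1),h1),
  ((8,34),(8,35),0,0,(0,1),h1),
  ((12,52),(24,99),0,0,(0,1),h1),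
  ((12,53),(24,102),0,0,(0,1),h1),
  ((12,54),(24,104),0,0,(0,1),h1),
  ((12,56),(24,101),0,0,(0,1),h1),
  ((12,57),(24,103),0,0,(0,1),h1),
  ((20,81),(20,89),0,0,(0,1),h1),
  ((20,83),(20,85),0,0,(0,1),h1)]
theorem c9_ok : cka (24, 105) [] c9 = true := by decide +kernel

def c11 : List Sg := [
  ((4,19),(4,12),1,-2,(2,6),h1),
  ((6,26),(24,105),0,0,(0,1),h1),
  ((6,27),(24,100),1,-2,(2,5),h1),
  ((8,39),(20,80),1,-2,(3,9),h1),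
  ((11,49),(14,60),1,-2,(1,2),h1),
  ((12,53),(12,52),0,0,(0,1),h1),
  ((0,1),(24,99),2,-4,(2,6),h1),
  ((12,59),(24,101),2,-4,(2,6),h1),
  ((4,13),(16,73),0,0,(0,1),h1),
  ((4,14),(16,77),0,0,(0,1),h1),
  ((4,15),(4,17),0,0,(0,1),h1),
  ((4,16),(16,71),0,0,(0,1),h1),
  ((4,18),(16,75),0,0,(0,1),h1),
  ((6,25),(12,56),0,0,(0,1),h1),
  ((8,32),(8,35),0,0,(0,1),h1),
  ((8,33),(8,38),0,0,(0,1),h1),
  ((8,34),(11,48),0,0,(0,1),h1),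
  ((8,36),(20,84),0,0,(0,1),h1),
  ((8,37),(14,62),0,0,(0,1),h1),
  ((12,51),(24,104),0,0,(0,1),h1),
  ((12,54),(24,103),0,0,(0,1),h1),
  ((12,55),(24,106),0,0,(0,1),h1),
  ((12,57),(24,102),0,0,(0,1),h1),
  ((20,82),(20,88),0,0,(0,1),h1),
  ((20,86),(20,90),0,0,(0,1),h1)]
theorem c11_ok : cka (24, 107) [] c11 = true := by decide +kernel

def c13 : List Sg := [
  ((4,20),(4,13),1,-2,(1,3),h1),
  ((5,24),(2,5),1,-2,(1,3),h1),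
  ((6,27),(24,105),1,-2,(2,5),h1),
  ((8,41),(20,85),1,-2,(4,12),h1),
  ((0,4),(24,104),2,-4,(2,7),h1),
  ((12,60),(24,102),2,-4,(2,6),h1),
  ((0,2),(12,53),0,0,(0,1),h1),
  ((2,7),(8,35),0,0,(0,1),h1),
  ((4,15),(16,78),0,0,(0,1),h1),
  ((4,17),(16,72),0,0,(0,1),h1),
  ((4,18),(16,74),0,0,(0,1),h1),
  ((4,19),(16,76),0,0,(0,1),h1),
  ((5,23),(8,39),0,0,(0,1),h1),
  ((8,32),(8,40),0,0,(0,1),h1),
  ((8,33),(8,38),0,0,(0,1),h1),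
  ((8,34),(20,93),0,0,(0,1),h1),
  ((8,36),(8,37),0,0,(0,1),h1),
  ((12,54),(12,56),0,0,(0,1),h1),
  ((12,55),(12,58),0,0,(0,1),h1),
  ((12,57),(24,106),0,0,(0,1),h1),
  ((12,59),(24,107),0,0,(0,1),h1),
  ((12,61),(24,108),0,0,(0,1),h1),
  ((20,87),(20,91),0,0,(0,1),h1),
  ((20,89),(20,95),0,0,(0,1),h1)]
theorem c13_ok : cka (24, 109) [] c13 = true := by decide +kernel

def c15 : List Sg := [
  ((4,19),(4,12),1,-2,(2,6),h1),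
  ((6,28),(24,108),0,0,(0,1),h1),
  ((6,30),(24,104),1,-2,(2,3),h1),
  ((8,33),(20,98),1,-2,(0,3),h1),
  ((8,40),(20,84),0,0,(0,1),h1),
  ((8,42),(20,80),1,-2,(3,8),h1),
  ((11,51),(14,62),1,-2,(1,1),h1),
  ((0,5),(24,107),0,0,(0,1),h1),
  ((0,7),(24,103),2,-4,(2,5),h1),
  ((12,61),(24,97),2,-4,(2,5),h1),
  ((0,1),(24,106),0,0,(0,1),h1),
  ((0,3),(12,53),0,0,(0,1),h1),
  ((4,14),(16,83),0,0,(0,1),h1),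
  ((4,16),(16,79),0,0,(0,1),h1),
  ((4,17),(16,77),0,0,(0,1),h1),
  ((4,18),(16,75),0,0,(0,1),h1),
  ((6,25),(12,59),0,0,(0,1),h1),
  ((6,26),(6,29),0,0,(0,1),h1),
  ((6,27),(12,55),0,0,(0,1),h1),
  ((8,36),(11,50),0,0,(0,1),h1),
  ((8,37),(8,38),0,0,(0,1),h1),
  ((8,39),(14,64),0,0,(0,1),h1),
  ((8,41),(20,86),0,0,(0,1),h1),
  ((12,52),(12,57),0,0,(0,1),h1),
  ((12,54),(24,110),0,0,(0,1),h1),
  ((12,56),(24,109),0,0,(0,1),h1),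
  ((12,58),(24,105),0,0,(0,1),h1),
  ((12,60),(24,101),0,0,(0,1),h1),
  ((16,71),(16,73),0,0,(0,1),h1),
  ((20,82),(20,90),0,0,(0,1),h1),
  ((20,88),(20,92),0,0,(0,1),h1)]
theorem c15_ok : cka (24, 111) [] c15 = true := by decide +kernel

def c17 : List Sg := [
  ((4,18),(4,19),0,0,(0,1),h1),
  ((4,20),(4,15),1,-2,(2,8),h1),
  ((6,28),(24,109),1,-2,(2,7),h1),
  ((8,40),(20,89),1,-2,(3,11),h1),
  ((11,52),(14,65),1,-2,(1,3),h1),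
  ((12,57),(12,55),0,0,(0,1),h1),
  ((0,2),(24,106),2,-4,(2,7),h1),
  ((12,58),(24,112),2,-4,(2,9),h1),
  ((4,16),(16,76),0,0,(0,1),h1),
  ((4,17),(16,78),0,0,(0,1),h1),
  ((8,35),(11,51),0,0,(0,1),h1),
  ((8,36),(8,39),0,0,(0,1),h1),
  ((8,37),(20,93),0,0,(0,1),h1),
  ((8,38),(14,67),0,0,(0,1),h1),
  ((12,56),(24,111),0,0,(0,1),h1),
  ((12,59),(24,110),0,0,(0,1),h1),
  ((20,91),(20,95),0,0,(0,1),h1)]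
theorem c17_ok : cka (24, 113) [] c17 = true := by decide +kernel

def c19 : List Sg := [
  ((4,20),(4,17),0,0,(0,1),h1),
  ((4,22),(4,13),1,-2,(2,7),h1),
  ((6,29),(24,114),1,-2,(2,6),h1),
  ((8,36),(20,100),0,0,(0,1),h1),
  ((8,38),(20,96),0,0,(0,1),h1),
  ((8,41),(20,90),1,-2,(2,5),h1),
  ((10,50),(16,75),1,-2,(1,3),h1),
  ((11,54),(14,67),1,-2,(1,3),h1),
  ((0,4),(24,105),2,-4,(2,7),h1),
  ((12,58),(24,111),2,-4,(2,9),h1),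
  ((0,2),(12,57),0,0,(0,1),h1),
  ((4,15),(16,78),0,0,(0,1),h1),
  ((4,18),(10,49),0,0,(0,1),h1),
  ((4,19),(10,47),0,0,(0,1),h1),
  ((4,21),(16,77),0,0,(0,1),h1),
  ((8,35),(14,69),0,0,(0,1),h1),
  ((8,37),(11,53),0,0,(0,1),h1),
  ((8,39),(8,40),0,0,(0,1),h1),
  ((10,46),(10,48),0,0,(0,1),h1),
  ((12,59),(24,113),0,0,(0,1),h1),
  ((12,61),(24,109),0,0,(0,1),h1),
  ((16,76),(16,80),0,0,(0,1),h1),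
  ((20,92),(20,98),0,0,(0,1),h1),
  ((20,94),(20,102),0,0,(0,1),h1)]
theorem c19_ok : cka (24, 115) [] c19 = true := by decide +kernel

def c21 : List Sg := [
  ((4,21),(4,17),1,-2,(2,9),h1),
  ((6,30),(24,113),1,-2,(2,7),h1),
  ((8,41),(20,95),1,-2,(3,13),h1),
  ((11,55),(14,67),1,-2,(1,3),h1),
  ((0,2),(24,114),2,-4,(2,10),h1),
  ((12,62),(24,112),2,-4,(2,8),h1),
  ((4,19),(16,80),0,0,(0,1),h1),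
  ((8,37),(8,40),0,0,(0,1),h1),
  ((8,38),(14,69),0,0,(0,1),h1),
  ((8,39),(11,54),0,0,(0,1),h1),
  ((12,58),(24,115),0,0,(0,1),h1),
  ((12,59),(12,60),0,0,(0,1),h1),
  ((12,61),(24,116),0,0,(0,1),h1),
  ((20,97),(20,99),0,0,(0,1),h1)]
theorem c21_ok : cka (24, 117) [] c21 = true := by decide +kernel

def c23 : List Sg := [
  ((4,24),(4,15),1,-2,(2,8),h1),
  ((6,32),(24,118),1,-2,(2,3),h1),
  ((8,35),(20,112),1,-2,(0,3),h1),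
  ((8,44),(20,94),1,-2,(2,6),h1),
  ((10,51),(16,80),0,0,(0,1),h1),
  ((10,52),(16,75),1,-2,(1,3),h1),
  ((11,56),(14,67),1,-2,(1,1),h1),
  ((12,58),(12,63),0,0,(0,1),h1),
  ((12,61),(12,57),0,0,(0,1),h1),
  ((0,4),(24,113),2,-4,(2,7),h1),
  ((12,60),(24,115),2,-4,(2,9),h1),
  ((0,2),(12,59),0,0,(0,1),h1),
  ((4,17),(16,85),0,0,(0,1),h1),
  ((4,18),(10,50),0,0,(0,1),h1),
  ((4,19),(16,82),0,0,(0,1),h1),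
  ((4,20),(16,78),0,0,(0,1),h1),
  ((4,21),(4,22),0,0,(0,1),h1),
  ((4,23),(16,77),0,0,(0,1),h1),
  ((8,38),(20,104),0,0,(0,1),h1),
  ((8,39),(8,42),0,0,(0,1),h1),
  ((8,40),(20,100),0,0,(0,1),h1),
  ((8,41),(11,55),0,0,(0,1),h1),
  ((8,43),(14,69),0,0,(0,1),h1),
  ((12,65),(24,117),0,0,(0,1),h1),
  ((16,79),(16,81),0,0,(0,1),h1),
  ((20,96),(20,102),0,0,(0,1),h1),
  ((20,98),(20,106),0,0,(0,1),h1)]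
theorem c23_ok : cka (24, 119) [] c23 = true := by decide +kernel

def l1 : List Sg := [
  ((4,18),(4,9),1,-2,(2,5),h9),
  ((6,24),(24,94),1,-2,(2,5),h9),
  ((8,35),(20,72),1,-2,(2,3),h9),
  ((10,41),(16,63),1,-2,(1,3),h9),
  ((11,45),(14,55),1,-2,(1,2),h9),
  ((0,4),(24,87),2,-4,(2,6),h9),
  ((12,52),(24,93),2,-4,(2,7),h9),
  ((0,2),(12,47),0,0,(0,1),h9),
  ((4,11),(16,65),0,0,(0,1),h9),
  ((4,13),(4,17),0,0,(0,1),h9),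
  ((8,29),(14,57),0,0,(0,1),h9),
  ((8,30),(8,33),0,0,(0,1),h9),
  ((8,31),(11,44),0,0,(0,1),h9),
  ((8,32),(20,80),0,0,(0,1),h9),
  ((8,34),(20,76),0,0,(0,1),h9),
  ((12,49),(24,95),0,0,(0,1),h9),
  ((12,51),(24,91),0,0,(0,1),h9),
  ((20,74),(20,82),0,0,(0,1),h9),
  ((20,78),(20,84),0,0,(0,1),h9),
  ((0,0),(12,50),0,0,(0,1),[(1,3),(3,0),(4,4),(6,8)]),
  ((0,0),(24,96),0,0,(0,1),[(2,4),(5,5),(7,2),(8,6)]),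
  ((6,23),(12,48),0,0,(0,1),[(0,7),(4,0),(5,6),(8,5)]),
  ((6,23),(24,96),0,0,(0,1),[(1,0),(2,3),(3,8),(6,7),(7,1)]),
  ((4,15),(10,40),0,0,(0,1),[(0,1),(3,6),(5,4),(7,0),(8,8)]),
  ((4,15),(10,39),0,0,(0,1),[(1,1),(2,5),(4,8),(6,2)]),
  ((10,38),(10,40),0,0,(0,1),[(2,2),(6,3),(4,5),(8,7)]),
  ((4,16),(4,16),0,0,(0,1),[(0,3),(4,8)]),
  ((4,16),(16,66),0,0,(0,1),[(1,6),(2,3),(5,8),(6,7),(7,5)]),
  ((16,66),(16,66),0,0,(0,1),[(0,1),(2,4)]),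
  ((10,38),(10,39),0,0,(0,1),[(0,6),(1,4),(3,7),(5,3),(7,0)]),
  ((12,48),(12,50),0,0,(0,1),[(1,6),(2,5),(3,7),(4,2),(8,1)])]
theorem l1_ok : cka (24, 97) [3, 3] l1 = true := by decide +kernel

def l5 : List Sg := [
  ((4,19),(4,10),1,-2,(1,1),h9),
  ((5,23),(2,2),1,-2,(1,1),h9),
  ((6,24),(24,98),1,-2,(2,5),h9),
  ((8,38),(20,78),1,-2,(3,8),h9),
  ((11,48),(14,58),1,-2,(1,2),h9),
  ((0,3),(24,99),0,0,(0,1),h9),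
  ((0,5),(24,95),2,-4,(2,6),h9),
  ((12,55),(24,93),2,-4,(2,5),h9),
  ((4,12),(16,69),0,0,(0,1),h9),
  ((4,14),(16,73),0,0,(0,1),h9),
  ((4,16),(4,17),0,0,(0,1),h9),
  ((5,20),(8,35),0,0,(0,1),h9),
  ((5,21),(8,37),0,0,(0,1),h9),
  ((5,22),(8,34),0,0,(0,1),h9),
  ((8,29),(11,47),0,0,(0,1),h9),
  ((8,31),(20,86),0,0,(0,1),h9),
  ((8,33),(11,46),0,0,(0,1),h9),
  ((12,50),(12,53),0,0,(0,1),h9),
  ((20,80),(20,88),0,0,(0,1),h9),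
  ((20,82),(20,84),0,0,(0,1),h9),
  ((0,0),(24,97),0,0,(0,1),[(1,2),(4,4),(5,6),(8,1)]),
  ((0,0),(12,54),0,0,(0,1),[(2,1),(3,7),(6,2),(7,8)]),
  ((0,1),(12,51),0,0,(0,1),[(0,8),(1,5),(2,2),(3,6),(4,3),(5,0),(6,7),(7,4),(8,1)]),
  ((2,4),(14,62),0,0,(0,1),[(0,4),(1,1),(2,6),(6,0)]),
  ((2,4),(14,60),0,0,(0,1),[(3,3),(4,2),(5,6),(7,0),(8,4)]),
  ((2,8),(14,60),0,0,(0,1),[(6,1),(2,7),(8,8)]),
  ((2,6),(14,60),0,0,(0,1),[(7,5)]),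
  ((2,6),(8,30),0,0,(0,1),[(0,2),(2,5),(3,4),(5,1)]),
  ((2,6),(14,62),0,0,(0,1),[(1,2),(4,7),(6,8),(8,5)]),
  ((8,30),(8,36),0,0,(0,1),[(0,7),(3,2),(6,6)]),
  ((8,30),(8,30),0,0,(0,1),[(7,8)]),
  ((2,8),(14,62),0,0,(0,1),[(0,3)]),
  ((2,8),(8,32),0,0,(0,1),[(1,5),(3,3),(4,6),(5,0),(7,4)]),
  ((4,18),(16,65),0,0,(0,1),[(0,0),(1,5),(7,1)]),
  ((4,18),(16,67),0,0,(0,1),[(2,1),(3,0),(4,5),(5,8),(6,2),(8,3)]),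
  ((16,67),(16,71),0,0,(0,1),[(4,1),(6,0),(7,8)]),
  ((8,32),(8,32),0,0,(0,1),[(1,7)]),
  ((8,32),(8,36),0,0,(0,1),[(2,4),(8,0)]),
  ((8,36),(8,36),0,0,(0,1),[(1,5),(3,8)]),
  ((12,52),(24,100),0,0,(0,1),[(0,2),(1,8),(2,5),(3,7),(4,1),(5,3),(6,6),(7,0),(8,4)]),
  ((12,54),(24,97),0,0,(0,1),[(0,3),(3,5),(4,8),(5,0),(6,7)]),
  ((16,65),(16,71),0,0,(0,1),[(2,3),(3,6),(4,5),(6,2),(7,4),(8,7)])]
theorem l5_ok : cka (24, 101) [3, 3] l5 = true := by decide +kernel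

def l7 : List Sg := [
  ((4,17),(4,11),1,-2,(2,6),h9),
  ((6,27),(24,97),1,-2,(2,3),h9),
  ((8,38),(20,79),1,-2,(3,9),h9),
  ((11,48),(14,59),1,-2,(1,1),h9),
  ((0,2),(24,98),2,-4,(2,8),h9),
  ((12,56),(24,96),2,-4,(2,6),h9),
  ((4,13),(16,72),0,0,(0,1),h9),
  ((4,15),(16,68),0,0,(0,1),h9),
  ((6,23),(6,25),0,0,(0,1),h9),
  ((6,24),(12,54),0,0,(0,1),h9),
  ((6,26),(12,50),0,0,(0,1),h9),
  ((8,31),(20,87),0,0,(0,1),h9),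
  ((8,33),(11,47),0,0,(0,1),h9),
  ((8,34),(14,61),0,0,(0,1),h9),
  ((12,49),(12,52),0,0,(0,1),h9),
  ((12,51),(24,102),0,0,(0,1),h9),
  ((12,53),(24,101),0,0,(0,1),h9),
  ((12,55),(24,100),0,0,(0,1),h9),
  ((0,0),(24,99),0,0,(0,1),[(1,3),(5,5),(6,8),(7,1)]),
  ((0,0),(12,57),0,0,(0,1),[(2,8),(3,2),(4,5),(8,0)]),
  ((8,30),(8,35),0,0,(0,1),[(0,1),(1,7),(4,3),(5,0),(7,2)]),
  ((8,30),(20,91),0,0,(0,1),[(2,5),(3,8),(6,4),(8,0)]),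
  ((8,35),(8,36),0,0,(0,1),[(4,1),(5,7),(6,0),(8,3)]),
  ((8,32),(8,37),0,0,(0,1),[(0,5),(1,6),(4,4),(5,8)]),
  ((8,32),(20,89),0,0,(0,1),[(2,4),(3,3),(6,8),(7,5),(8,2)]),
  ((20,81),(20,89),0,0,(0,1),[(2,0),(5,1),(4,6),(0,7)]),
  ((8,36),(8,37),0,0,(0,1),[(2,2),(4,0),(5,3),(6,1),(8,7)]),
  ((12,57),(24,99),0,0,(0,1),[(1,0),(3,4),(4,7),(6,6),(7,2)]),
  ((20,81),(20,85),0,0,(0,1),[(1,5),(3,8),(6,0),(7,6),(8,4)]),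
  ((20,85),(20,85),0,0,(0,1),[(1,3),(2,7)]),
  ((20,83),(20,83),0,0,(0,1),[(0,1),(2,8)]),
  ((20,83),(20,91),0,0,(0,1),[(3,7),(4,3),(5,2),(6,6),(7,1)])]
theorem l7_ok : cka (24, 103) [3, 3] l7 = true := by decide +kernel

def l11 : List Sg := [
  ((4,19),(4,12),1,-2,(2,6),h9),
  ((6,26),(24,105),0,0,(0,1),h9),
  ((6,27),(24,100),1,-2,(2,4),h9),
  ((8,39),(20,80),1,-2,(3,9),h9),
  ((11,49),(14,60),1,-2,(1,2),h9),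
  ((0,1),(24,99),2,-4,(2,6),h9),
  ((12,59),(24,101),2,-4,(2,6),h9),
  ((4,14),(16,77),0,0,(0,1),h9),
  ((6,25),(12,56),0,0,(0,1),h9),
  ((8,34),(11,48),0,0,(0,1),h9),
  ((8,36),(20,84),0,0,(0,1),h9),
  ((8,37),(14,62),0,0,(0,1),h9),
  ((12,57),(24,102),0,0,(0,1),h9),
  ((20,82),(20,88),0,0,(0,1),h9),
  ((8,31),(20,92),0,0,(0,1),h9),
  ((4,13),(16,73),0,0,(0,1),h9),
  ((8,33),(8,38),0,0,(0,1),h9),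
  ((4,18),(16,75),0,0,(0,1),h9),
  ((4,15),(4,17),0,0,(0,1),h9),
  ((4,16),(16,71),0,0,(0,1),h9),
  ((0,0),(12,54),0,0,(0,1),[(1,1),(4,0),(5,3),(6,8)]),
  ((0,0),(24,103),0,0,(0,1),[(3,0),(8,3),(2,1)]),
  ((0,0),(24,106),0,0,(0,1),[(7,6)]),
  ((24,104),(24,104),0,0,(0,1),[(2,6)]),
  ((12,54),(24,103),0,0,(0,1),[(2,7),(5,5),(7,8)]),
  ((24,103),(24,106),0,0,(0,1),[(2,5),(4,4),(6,1)]),
  ((24,106),(24,106),0,0,(0,1),[(2,7)]),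
  ((12,52),(12,53),0,0,(0,1),[(1,0),(8,3),(4,4),(5,7),(2,8)]),
  ((12,53),(12,54),0,0,(0,1),[(1,4),(5,6)]),
  ((12,53),(24,104),0,0,(0,1),[(2,1),(6,4)]),
  ((12,52),(12,55),0,0,(0,1),[(0,8),(6,4),(7,0)]),
  ((12,51),(12,52),0,0,(0,1),[(7,3)]),
  ((12,51),(24,104),0,0,(0,1),[(0,3),(2,7),(3,8),(5,0),(8,5)]),
  ((12,51),(12,55),0,0,(0,1),[(1,1),(4,2),(6,3)]),
  ((12,55),(24,106),0,0,(0,1),[(5,8),(6,3),(7,0)]),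
  ((8,32),(20,90),0,0,(0,1),[(0,8),(1,4),(4,2),(6,7),(7,0),(8,5)]),
  ((8,32),(8,35),0,0,(0,1),[(2,1),(3,4),(5,2)]),
  ((8,35),(8,35),0,0,(0,1),[(0,6)]),
  ((8,35),(20,86),0,0,(0,1),[(3,4),(5,6),(7,3),(8,8)]),
  ((20,86),(20,86),0,0,(0,1),[(0,1)]),
  ((20,86),(20,90),0,0,(0,1),[(2,3),(5,1),(7,6)])]
theorem l11_ok : cka (24, 107) [3, 3] l11 = true := by decide +kernel

def l13 : List Sg := [
  ((4,20),(4,13),1,-2,(1,3),h9),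
  ((5,24),(2,5),1,-2,(1,3),h9),
  ((6,28),(24,103),1,-2,(2,4),h9),
  ((8,41),(20,85),1,-2,(4,12),h9),
  ((0,4),(24,104),2,-4,(2,7),h9),
  ((12,60),(24,102),2,-4,(2,6),h9),
  ((2,7),(8,35),0,0,(0,1),h9),
  ((4,15),(16,78),0,0,(0,1),h9),
  ((4,17),(16,72),0,0,(0,1),h9),
  ((4,18),(16,74),0,0,(0,1),h9),
  ((4,19),(16,76),0,0,(0,1),h9),
  ((5,23),(8,39),0,0,(0,1),h9),
  ((8,32),(8,40),0,0,(0,1),h9),
  ((8,33),(8,38),0,0,(0,1),h9),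
  ((8,34),(20,93),0,0,(0,1),h9),
  ((8,36),(8,37),0,0,(0,1),h9),
  ((12,57),(24,106),0,0,(0,1),h9),
  ((12,59),(24,107),0,0,(0,1),h9),
  ((12,61),(24,108),0,0,(0,1),h9),
  ((20,87),(20,91),0,0,(0,1),h9),
  ((20,89),(20,95),0,0,(0,1),h9),
  ((0,0),(0,2),0,0,(0,1),[(1,8),(2,0),(6,6),(8,5)]),
  ((0,0),(0,0),0,0,(0,1),[(3,5),(4,7)]),
  ((6,27),(24,105),0,0,(0,1),[(0,0),(2,7),(3,5),(5,2),(6,1)]),
  ((6,27),(12,58),0,0,(0,1),[(1,0),(4,2),(7,4),(8,1)]),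
  ((12,54),(24,105),0,0,(0,1),[(2,3),(7,4),(1,6),(5,8)]),
  ((0,2),(12,53),0,0,(0,1),[(1,2),(2,6),(3,8),(4,3),(7,7)]),
  ((12,53),(12,56),0,0,(0,1),[(0,5),(1,8),(4,3),(5,1)]),
  ((12,54),(12,56),0,0,(0,1),[(0,4),(3,2),(4,6),(6,0),(8,7)]),
  ((12,55),(12,55),0,0,(0,1),[(0,7),(5,6)]),
  ((12,55),(12,58),0,0,(0,1),[(1,7),(2,5),(3,3),(4,8),(8,6)])]
theorem l13_ok : cka (24, 109) [3, 3] l13 = true := by decide +kernel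

def l17 : List Sg := [
  ((4,18),(4,19),0,0,(0,1),h9),
  ((4,20),(4,15),1,-2,(2,8),h9),
  ((6,28),(24,109),1,-2,(2,7),h9),
  ((8,40),(20,89),1,-2,(3,11),h9),
  ((11,53),(14,63),1,-2,(1,2),h9),
  ((0,2),(24,106),2,-4,(2,7),h9),
  ((12,60),(24,108),2,-4,(2,8),h9),
  ((0,0),(12,57),0,0,(0,1),[(1,3),(2,6),(3,2),(6,1)]),
  ((0,0),(24,110),0,0,(0,1),[(4,7),(5,4),(7,8),(8,5)]),
  ((11,52),(14,65),0,0,(0,1),[(0,0),(1,3),(2,6),(3,2),(6,1)]),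
  ((8,36),(11,52),0,0,(0,1),[(3,4),(8,5),(4,7),(6,8)]),
  ((8,36),(14,65),0,0,(0,1),[(5,4),(2,5),(1,7),(7,8)]),
  ((12,55),(12,57),0,0,(0,1),[(0,0),(6,5),(3,7)]),
  ((12,57),(12,57),0,0,(0,1),[(4,8)]),
  ((12,55),(12,55),0,0,(0,1),[(1,2)]),
  ((12,55),(12,58),0,0,(0,1),[(4,2),(5,6),(7,3),(8,1)]),
  ((12,58),(24,112),0,0,(0,1),[(0,0),(4,5),(5,6),(7,3),(8,7)]),
  ((12,59),(24,112),0,0,(0,1),[(3,1),(6,2),(1,4),(2,8)]),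
  ((4,16),(16,76),0,0,(0,1),[(0,0),(1,6),(2,3),(5,4),(7,8)]),
  ((4,16),(16,78),0,0,(0,1),[(3,1),(4,5),(6,2),(8,7)]),
  ((4,17),(16,76),0,0,(0,1),[(3,1),(6,2),(8,5),(4,7)]),
  ((4,17),(16,78),0,0,(0,1),[(0,0),(1,8),(2,4),(5,3),(7,6)]),
  ((8,35),(11,51),0,0,(0,1),h1),
  ((8,35),(8,37),0,0,(0,1),[(1,8),(2,4)]),
  ((8,35),(8,35),0,0,(0,1),[(3,6)]),
  ((8,35),(8,39),0,0,(0,1),[(4,3),(5,8),(7,4),(8,6)]),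
  ((11,51),(14,67),0,0,(0,1),[(1,3),(2,6),(3,2),(6,1)]),
  ((8,38),(11,51),0,0,(0,1),[(7,4),(4,5),(8,7),(5,8)]),
  ((8,36),(8,39),0,0,(0,1),h1),
  ((8,39),(20,91),0,0,(0,1),[(1,5),(2,7),(5,8),(7,4)]),
  ((8,37),(20,93),0,0,(0,1),[(0,0),(1,7),(2,5),(3,4),(6,8)]),
  ((8,37),(8,37),0,0,(0,1),[(5,7)]),
  ((20,93),(20,95),0,0,(0,1),[(1,7),(2,5),(3,4),(6,8)]),
  ((8,38),(14,67),0,0,(0,1),[(0,0),(1,5),(2,7),(3,8),(6,4)]),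
  ((12,56),(24,111),0,0,(0,1),[(0,0),(1,8),(2,4),(3,7),(4,3),(5,2),(6,5),(7,1),(8,6)]),
  ((12,59),(24,110),0,0,(0,1),[(0,0),(4,1),(5,6),(7,3),(8,2)]),
  ((20,91),(20,95),0,0,(0,1),[(0,0),(1,3),(2,6),(3,2),(6,1)])]
theorem l17_ok : cka (24, 113) [3, 3] l17 = true := by decide +kernel

def l19 : List Sg := [
  ((4,22),(4,13),1,-2,(2,6),h9),
  ((6,29),(24,114),1,-2,(2,6),h9),
  ((8,36),(20,100),0,0,(0,1),h9),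
  ((8,38),(20,96),0,0,(0,1),h9),
  ((8,41),(20,90),1,-2,(2,5),h9),
  ((10,50),(16,75),1,-2,(1,3),h9),
  ((11,54),(14,67),1,-2,(1,3),h9),
  ((0,4),(24,105),2,-4,(2,7),h9),
  ((12,58),(24,111),2,-4,(2,9),h9),
  ((4,15),(16,78),0,0,(0,1),h9),
  ((4,18),(10,49),0,0,(0,1),h9),
  ((4,19),(10,47),0,0,(0,1),h9),
  ((12,59),(24,113),0,0,(0,1),h9),
  ((12,61),(24,109),0,0,(0,1),h9),
  ((20,92),(20,98),0,0,(0,1),h9),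
  ((20,94),(20,102),0,0,(0,1),h9),
  ((0,0),(0,1),0,0,(0,1),[(1,1),(2,6),(7,2),(8,4)]),
  ((0,0),(0,2),0,0,(0,1),[(3,5),(4,8),(5,2),(6,0)]),
  ((4,17),(4,20),0,0,(0,1),[(4,0),(6,1),(1,2),(0,3),(2,6)]),
  ((4,20),(16,76),0,0,(0,1),[(4,4),(5,2),(7,0),(8,6)]),
  ((4,17),(16,77),0,0,(0,1),[(3,6),(5,0),(7,3),(8,8)]),
  ((6,28),(6,28),0,0,(0,1),[(0,4),(3,6)]),
  ((0,1),(6,28),0,0,(0,1),[(3,1),(0,2),(8,5),(5,7),(7,8)]),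
  ((0,2),(12,57),0,0,(0,1),[(1,6),(3,5),(4,7),(6,4),(7,8)]),
  ((12,57),(12,57),0,0,(0,1),[(0,2),(1,3)]),
  ((4,21),(10,48),0,0,(0,1),[(0,4),(1,1),(2,7),(8,2)]),
  ((4,21),(16,77),0,0,(0,1),[(3,7),(4,2),(5,4),(6,5),(7,1)]),
  ((8,35),(14,69),0,0,(0,1),[(0,7),(1,1),(2,3),(3,0),(8,4)]),
  ((8,35),(8,39),0,0,(0,1),[(4,3),(5,6),(6,4),(7,1)]),
  ((11,53),(14,69),0,0,(0,1),[(7,2),(5,5),(4,6),(0,8)]),
  ((8,37),(11,53),0,0,(0,1),[(0,6),(1,2),(3,1),(4,3),(5,8)]),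
  ((8,37),(8,40),0,0,(0,1),[(2,2),(6,8),(7,4),(8,1)]),
  ((8,39),(8,40),0,0,(0,1),[(0,6),(2,5),(5,3),(7,0),(8,7)]),
  ((10,46),(10,48),0,0,(0,1),[(0,8),(4,5),(6,6),(7,0),(8,3)]),
  ((10,46),(16,80),0,0,(0,1),[(1,2),(2,4),(3,5),(5,8)]),
  ((16,76),(16,80),0,0,(0,1),[(1,7),(3,3),(5,1),(7,0),(8,6)])]
theorem l19_ok : cka (24, 115) [3, 3] l19 = true := by decide +kernel

def l23 : List Sg := [
  ((4,24),(4,15),1,-2,(2,7),h9),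
  ((6,33),(24,116),1,-2,(2,2),h9),
  ((8,35),(20,112),1,-2,(0,3),h9),
  ((8,44),(20,94),1,-2,(2,6),h9),
  ((10,52),(16,75),1,-2,(1,3),h9),
  ((11,56),(14,67),1,-2,(1,1),h9),
  ((12,61),(12,57),0,0,(0,1),h9),
  ((0,4),(24,113),2,-4,(2,7),h9),
  ((12,62),(24,111),2,-4,(2,8),h9),
  ((0,2),(12,59),0,0,(0,1),h9),
  ((4,17),(16,85),0,0,(0,1),h9),
  ((4,19),(16,82),0,0,(0,1),h9),
  ((4,20),(16,78),0,0,(0,1),h9),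
  ((4,21),(4,22),0,0,(0,1),h9),
  ((4,23),(16,77),0,0,(0,1),h9),
  ((8,38),(20,104),0,0,(0,1),h9),
  ((8,39),(8,42),0,0,(0,1),h9),
  ((8,40),(20,100),0,0,(0,1),h9),
  ((8,41),(11,55),0,0,(0,1),h9),
  ((8,43),(14,69),0,0,(0,1),h9),
  ((12,65),(24,117),0,0,(0,1),h9),
  ((16,79),(16,81),0,0,(0,1),h9),
  ((20,96),(20,102),0,0,(0,1),h9),
  ((20,98),(20,106),0,0,(0,1),h9),
  ((0,0),(0,0),0,0,(0,1),[(1,3),(7,8)]),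
  ((0,0),(6,32),0,0,(0,1),[(2,4),(4,1),(5,3),(6,0)]),
  ((6,31),(12,60),0,0,(0,1),[(0,8),(2,1),(6,6),(7,4)]),
  ((0,1),(6,31),0,0,(0,1),[(0,1),(1,3),(7,4),(5,5),(4,8)]),
  ((0,1),(24,115),0,0,(0,1),[(2,2),(3,1),(6,5),(8,0)]),
  ((6,32),(24,118),0,0,(0,1),[(2,5),(5,6),(6,4),(7,7),(8,1)]),
  ((12,63),(24,118),0,0,(0,1),[(2,0),(7,2),(6,3),(0,8)]),
  ((4,18),(10,51),0,0,(0,1),[(6,0),(0,2),(3,4),(1,5)]),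
  ((10,51),(16,80),0,0,(0,1),[(1,5),(3,6),(6,7),(7,0),(8,3)]),
  ((10,50),(16,80),0,0,(0,1),[(7,1),(4,2),(8,4),(6,8)]),
  ((12,58),(12,63),0,0,(0,1),[(0,3),(3,1),(4,5),(6,8),(7,4)]),
  ((12,58),(12,58),0,0,(0,1),[(1,5),(2,8)]),
  ((12,60),(24,115),0,0,(0,1),[(0,7),(2,4),(3,3),(5,8),(7,6)]),
  ((4,18),(10,50),0,0,(0,1),[(2,1),(4,2),(5,5),(7,3),(8,0)])]
theorem l23_ok : cka (24, 119) [3, 3] l23 = true := by decide +kernel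

end Pool.Agent.H.MP_b9302b_co
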