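import Pool.Agent.H.MP_b9302b_co.C
import Pool.Agent.H.MP_b9302b_co.D

set_option autoImplicit false

namespace Pool.Agent.H.MP_b9302b_co

open Function

variable {G : Type} [AddCommGroup G]

theorem ss_one {n : ℕ} {g : G} (hp : Pres [(n, g)]) (h1 : n % 2 = 1) (h3 : n ≠ 3) (h5 : n ≠ 5)
    (h9 : n ≠ 9) : SS G := by
  have h0 : 1 < n := (hp.1 _ List.mem_cons_self).1
  by_cases hn : n < 96
  · refine ss_ckt hp T1_ok ?_
    have : ∀ n ∈ List.range 96, (1 < n ∧ n % 2 = 1 ∧ n ≠ 3 ∧ n ≠ 5 ∧ n ≠ 9) →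
        [n] ∈ T1.map Prod.fst := by decide +kernel
    exact this n (List.mem_range.2 hn) ⟨h0, h1, h3, h5, h9⟩
  have f : ∀ s C, cka (24, 96 + s) [] C = true → (n : ℤ) % 24 = s → SS G := fun s C hc hs =>
    ss_cka hp ((n - 96) / 24) _ (by simp only [ev]; omega) C hc
  have : (n : ℤ) % 24 = 1 ∨ (n : ℤ) % 24 = 3 ∨ (n : ℤ) % 24 = 5 ∨ (n : ℤ) % 24 = 7 ∨
      (n : ℤ) % 24 = 9 ∨ (n : ℤ) % 24 = 11 ∨ (n : ℤ) % 24 = 13 ∨ (n : ℤ) % 24 = 15 ∨
      (n : ℤ) % 24 = 17 ∨ (n : ℤ) % 24 = 19 ∨ (n : ℤ) % 24 = 21 ∨ (n : ℤ) % 24 = 23 := by omega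
  rcases this with h | h | h | h | h | h | h | h | h | h | h | h
  exacts [f 1 _ c1_ok h, f 3 _ c3_ok h, f 5 _ c5_ok h, f 7 _ c7_ok h, f 9 _ c9_ok h,
    f 11 _ c11_ok h, f 13 _ c13_ok h, f 15 _ c15_ok h, f 17 _ c17_ok h, f 19 _ c19_ok h,
    f 21 _ c21_ok h, f 23 _ c23_ok h]

theorem ss_three {n : ℕ} {g a b : G} (hp : Pres [(n, g), (3, a), (3, b)]) (h1 : n.Prime)
    (h7 : 7 ≤ n) : SS G := by
  by_cases hn : n < 96
  · have : ∀ n ∈ List.range 96, (7 ≤ n ∧ ∀ m ∈ List.range 96, m ∣ n → m = 1 ∨ m = n) →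
        [n, 3, 3] ∈ T3.map Prod.fst ∨ [n, 3, 3] ∈ T4.map Prod.fst := by decide +kernel
    rcases this n (List.mem_range.2 hn) ⟨h7, fun m _ => h1.eq_one_or_self_of_dvd m⟩ with h | h
    exacts [ss_ckt hp T3_ok h, ss_ckt hp T4_ok h]
  have f : ∀ s C, cka (24, 96 + s) [3, 3] C = true → (n : ℤ) % 24 = s → SS G := fun s C hc hs =>
    ss_cka hp ((n - 96) / 24) _ (by simp only [ev]; omega) C hc
  have h2 := h1.eq_one_or_self_of_dvd 2
  have h3 := h1.eq_one_or_self_of_dvd 3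
  have : (n : ℤ) % 24 = 1 ∨ (n : ℤ) % 24 = 5 ∨ (n : ℤ) % 24 = 7 ∨
      (n : ℤ) % 24 = 11 ∨ (n : ℤ) % 24 = 13 ∨
      (n : ℤ) % 24 = 17 ∨ (n : ℤ) % 24 = 19 ∨ (n : ℤ) % 24 = 23 := by omega
  rcases this with h | h | h | h | h | h | h | h
  exacts [f 1 _ l1_ok h, f 5 _ l5_ok h, f 7 _ l7_ok h,
    f 11 _ l11_ok h, f 13 _ l13_ok h, f 17 _ l17_ok h, f 19 _ l19_ok h, f 23 _ l23_ok h]

theorem ss_triv (h : Nat.card G = 1) : SS G :=
  ss_list [] (by simp [h]) (by simp) (by simp) (by simp)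

theorem ss_cyc [Finite G] (hc : IsAddCyclic G) (h1 : Nat.card G % 2 = 1) (h3 : Nat.card G ≠ 3)
    (h5 : Nat.card G ≠ 5) (h9 : Nat.card G ≠ 9) : SS G := by
  by_cases h : Nat.card G = 1
  · exact ss_triv h
  obtain ⟨g, hg⟩ := hc.exists_generator
  refine ss_one (n := Nat.card G) (g := g) ⟨?_, ?_, by simp⟩ h1 h3 h5 h9
  · intro a ha
    rw [List.mem_singleton.1 ha]
    exact ⟨by simp only; omega, card_nsmul_eq_zero'⟩
  · rw [eq_top_iff]
    intro u _
    obtain ⟨k, rfl⟩ := hg u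
    exact zsmul_mem (AddSubgroup.subset_closure (by simp)) k

theorem Pres.cyc {n : ℕ} {g : G} (hp : Pres [(n, g)]) : IsAddCyclic G := by
  refine ⟨⟨g, fun u => ?_⟩⟩
  obtain ⟨e, -, rfl⟩ := hp.surj u
  exact ⟨(e % n : ℕ), by simp only [dec, natCast_zsmul, add_zero]⟩

def facs : ℕ → ℕ → ℕ → List (List ℕ)
  | 0, _, _ => []
  | f + 1, lo, N => if N = 1 then [[]] else
      ((List.range (N + 1)).filter fun d => lo ≤ d ∧ N % d = 0).flatMap fun d =>
        (facs f d (N / d)).map (d :: ·)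

theorem facs_mem : ∀ (f lo : ℕ) (M : List ℕ), (∀ a ∈ M, 1 < a ∧ lo ≤ a) → M.Pairwise (· ≤ ·) →
    M.prod < 2 ^ f → M ∈ facs f lo M.prod
  | 0, _, M, h, _, h2 => by
    have : 0 < M.prod := List.prod_pos fun a ha => by have := h a ha; omega
    omega
  | f + 1, _, [], _, _, _ => by simp [facs]
  | f + 1, lo, a :: M, h, h1, h2 => by
    have p : 0 < M.prod := List.prod_pos fun a ha => by
      have := h a (List.mem_cons_of_mem _ ha); omega
    obtain ⟨a1, a2⟩ := h a List.mem_cons_self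
    rw [List.pairwise_cons] at h1
    rw [List.prod_cons] at h2 ⊢
    have := facs_mem f a M (fun b hb => ⟨(h b (List.mem_cons_of_mem _ hb)).1, h1.1 b hb⟩) h1.2
      (by rw [pow_succ] at h2; nlinarith)
    rw [facs, if_neg (by nlinarith)]
    simp only [List.mem_flatMap, List.mem_filter, List.mem_range, List.mem_map, decide_eq_true_eq]
    refine ⟨a, ⟨by nlinarith, a2, by simp⟩, M, ?_, rfl⟩
    rwa [Nat.mul_div_cancel_left _ (by omega)]

theorem pres_facs (G : Type) [AddCommGroup G] [Finite G] (h : Nat.card G < 256) :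
    ∃ L : List (ℕ × G), Pres L ∧ L.map Prod.fst ∈ facs 8 2 (Nat.card G) := by
  obtain ⟨L, h1, h2⟩ := exists_pres G
  refine ⟨L, h1, h1.2.2 ▸ facs_mem 8 2 _ (fun a ha => ?_) h2 (by rw [h1.2.2]; omega)⟩
  obtain ⟨b, hb, rfl⟩ := List.mem_map.1 ha
  have := (h1.1 b hb).1; omega

theorem ss_base [Finite G] (h : Nat.card G ∈ [25, 27, 45, 75, 81, 125, 135, 225, 243]) : SS G := by
  have key : ∀ N ∈ [25, 27, 45, 75, 81, 125, 135, 225, 243], (N < 256 ∧ N % 2 = 1 ∧ 9 < N) ∧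
      ∀ M ∈ facs 8 2 N, M.length = 1 ∨ M ∈ T2.map Prod.fst := by decide +kernel
  obtain ⟨k1, k2⟩ := key _ h
  obtain ⟨L, h1, h2⟩ := pres_facs G k1.1
  rcases k2 _ h2 with h3 | h3
  · obtain ⟨⟨n, g⟩, rfl⟩ := List.length_eq_one_iff.1 (by simpa using h3 : L.length = 1)
    exact ss_cyc h1.cyc (by omega) (by omega) (by omega) (by omega)
  · exact ss_ckt h1 T2_ok h3

theorem scm_cop [Finite G] (h : (Nat.card G).Coprime 6) : SCM G := by
  have i : ∀ k : ℕ, k ∣ 6 → Injective fun u : G => k • u := fun k hk =>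
    (h.coprime_dvd_right hk).nsmul_right_bijective.1
  refine ⟨fun u => 2 • u, i 2 (by norm_num), fun u v e => ?_, fun u v e => i 3 (by norm_num) ?_⟩
  · simpa [two_nsmul] using e
  · simp only at e ⊢
    rw [succ_nsmul' u 2, succ_nsmul' v 2, e]

theorem scm_27 [Finite G] (h : Nat.card G = 27) (hc : ¬ IsAddCyclic G) : SCM G := by
  obtain ⟨L, h1, h2⟩ := pres_facs G (by omega)
  have : ∀ M ∈ facs 8 2 27, M.length = 1 ∨ M = [3, 9] ∨ M = [3, 3, 3] := by decide +kernel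
  rcases this _ (h ▸ h2) with h3 | h3 | h3
  · obtain ⟨⟨n, g⟩, rfl⟩ := List.length_eq_one_iff.1 (by simpa using h3 : L.length = 1)
    exact absurd h1.cyc hc
  · exact scm_ck h1 _ (h3 ▸ m39)
  · exact scm_ck h1 _ (h3 ▸ m333)

def Tn (G : Type) [AddCommGroup G] (n : ℕ) : AddSubgroup G := (nsmulAddMonoidHom n : G →+ G).ker

theorem mem_Tn {n : ℕ} {u : G} : u ∈ Tn G n ↔ n • u = 0 := Iff.rfl

theorem Tn_mul [Finite G] (r m : ℕ) :
    Nat.card (Tn G (r * m)) ≤ Nat.card (Tn G r) * Nat.card (Tn G m) := by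
  let f : Tn G (r * m) →+ G := (nsmulAddMonoidHom r).comp (Tn G (r * m)).subtype
  rw [AddSubgroup.card_eq_card_quotient_mul_card_addSubgroup f.ker,
    Nat.card_congr (QuotientAddGroup.quotientKerEquivRange f).toEquiv, mul_comm]
  refine Nat.mul_le_mul ?_ (AddSubgroup.card_le_of_le ?_)
  · exact Nat.card_le_card_of_injective (fun u : f.ker => (⟨u.1.1, u.2⟩ : Tn G r))
      fun u v e => Subtype.ext (Subtype.ext (congrArg (fun z : Tn G r => z.1) e))
  · rintro _ ⟨u, rfl⟩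
    have := mem_Tn.1 u.2
    rw [mul_nsmul] at this
    exact this

theorem Tn_pow [Finite G] {r : ℕ} (hr : r.Prime) : ∃ k, Nat.card (Tn G r) = r ^ k := by
  refine ⟨_, Nat.eq_prime_pow_of_unique_prime_dvd Nat.card_pos.ne' fun {d} hd hd' => ?_⟩
  have := Fact.mk hd
  obtain ⟨u, hu⟩ := exists_prime_addOrderOf_dvd_card' d hd'
  have : r • u = 0 := Subtype.ext u.2
  exact (Nat.prime_dvd_prime_iff_eq hd hr).1 (hu ▸ addOrderOf_dvd_of_nsmul_eq_zero this)

theorem dich [Finite G] (h : ∀ r, r.Prime → r ≠ 3 → ¬ r ^ 2 ∣ Nat.card G) :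
    IsAddCyclic G ∨ 3 ^ 2 ∣ Nat.card (Tn G 3) := by
  classical
  by_cases h9 : 3 ^ 2 ∣ Nat.card (Tn G 3)
  · exact Or.inr h9
  left
  have hp : ∀ r, r.Prime → Nat.card (Tn G r) ≤ r := by
    intro r hr
    obtain ⟨k, hk⟩ := Tn_pow (G := G) hr
    have : ¬ r ^ 2 ∣ Nat.card (Tn G r) := by
      by_cases h3 : r = 3
      · rwa [h3]
      · exact fun e => h r hr h3 (e.trans (AddSubgroup.card_addSubgroup_dvd_card _))
    rw [hk] at this ⊢
    have k1 : k ≤ 1 := by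
      by_contra hc
      exact this (pow_dvd_pow _ (by omega))
    simpa using Nat.pow_le_pow_right hr.pos k1
  have ha : ∀ n, 0 < n → Nat.card (Tn G n) ≤ n := by
    intro n
    induction n using induction_on_primes with
    | zero => simp
    | one =>
      intro _
      have : Tn G 1 = ⊥ := by ext u; simp [mem_Tn]
      simp [this]
    | prime_mul p a h1 ih =>
      intro h0
      exact (Tn_mul p a).trans (Nat.mul_le_mul (hp p h1) (ih (Nat.pos_of_mul_pos_left h0)))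
  have := Fintype.ofFinite G
  refine isAddCyclic_of_card_nsmul_eq_zero_le fun n hn => ?_
  convert ha n hn
  rw [← Fintype.card_subtype, ← Nat.card_eq_fintype_card]; rfl

theorem sub_ex [Finite G] (p n m : ℕ) [Fact p.Prime] (H : AddSubgroup G) (h1 : Nat.card H = p ^ n)
    (h2 : p ^ m ∣ Nat.card G) (h3 : n ≤ m) : ∃ K : AddSubgroup G, Nat.card K = p ^ m ∧ H ≤ K := by
  obtain ⟨K, k1, k2⟩ := Sylow.exists_subgroup_card_pow_prime_le (G := Multiplicative G) p h2
    H.toSubgroup h1 h3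
  exact ⟨K.toAddSubgroup', k1, fun x hx => k2 hx⟩

theorem not_cyc [Finite G] (H K : AddSubgroup G) (h1 : Nat.card K = 9) (h2 : ∀ u ∈ K, 3 • u = 0)
    (h3 : K ≤ H) : ¬ IsAddCyclic H := by
  classical
  intro hc
  have := Fintype.ofFinite H
  have a := IsAddCyclic.card_nsmul_eq_zero_le (α := H) (n := 3) (by norm_num)
  have b := Nat.card_le_card_of_injective
    (fun u : K => (⟨⟨u.1, h3 u.2⟩, Subtype.ext (h2 _ u.2)⟩ : {v : H // 3 • v = 0}))
    fun u v e => Subtype.ext (congrArg (fun z => z.1.1) e)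
  rw [h1, Nat.card_eq_fintype_card, Fintype.card_subtype] at b
  have : 9 ≤ 3 := b.trans (by convert a)
  omega

theorem exK [Finite G] (h : 3 ^ 2 ∣ Nat.card (Tn G 3)) :
    ∃ K : AddSubgroup G, Nat.card K = 9 ∧ ∀ u ∈ K, 3 • u = 0 := by
  have : Fact (Nat.Prime 3) := ⟨by norm_num⟩
  obtain ⟨K, k1, -⟩ := sub_ex 3 0 2 (⊥ : AddSubgroup (Tn G 3)) (by simp) h (by norm_num)
  refine ⟨K.map (Tn G 3).subtype, ?_, ?_⟩
  · rw [AddSubgroup.card_map_of_injective (AddSubgroup.subtype_injective _), k1]; norm_num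
  · rintro _ ⟨u, -, rfl⟩; exact u.2

theorem ss_9p [Finite G] {p : ℕ} (hp : p.Prime) (h7 : 7 ≤ p) (h : Nat.card G = 9 * p)
    (h9 : 3 ^ 2 ∣ Nat.card (Tn G 3)) : SS G := by
  obtain ⟨K, k1, k2⟩ := exK h9
  obtain ⟨L, h1, h2⟩ := pres_facs K (by omega)
  have := Fact.mk hp
  obtain ⟨w, hw⟩ := exists_prime_addOrderOf_dvd_card' (G := G) p (h ▸ dvd_mul_left _ _)
  have : ∀ M ∈ facs 8 2 9, M.length = 1 ∨ M = [3, 3] := by decide +kernel
  rcases this _ (k1 ▸ h2) with h3 | h3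
  · obtain ⟨⟨n, g⟩, rfl⟩ := List.length_eq_one_iff.1 (by simpa using h3 : L.length = 1)
    exact absurd h1.cyc (not_cyc K K k1 k2 le_rfl)
  obtain ⟨⟨n, a⟩, ⟨m, b⟩, rfl⟩ := List.length_eq_two.1 (by simpa using congrArg List.length h3)
  refine ss_three (g := w) (a := a.1) (b := b.1) ⟨?_, ?_, by simp [h, mul_comm]⟩ hp h7
  · simp only [Gd, List.mem_cons, List.not_mem_nil, or_false, forall_eq_or_imp, forall_eq]
    exact ⟨⟨by omega, hw ▸ addOrderOf_nsmul_eq_zero w⟩, ⟨by omega, k2 _ a.2⟩, by omega, k2 _ b.2⟩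
  · set T := AddSubgroup.closure {g | ∃ c ∈ [(p, w), (3, a.1), (3, b.1)], c.2 = g}
    have t1 : K ≤ T := fun u hu => by
      obtain ⟨e, -, he⟩ := h1.surj ⟨u, hu⟩
      have : u = (e % n) • a.1 + (e / n % m) • b.1 := by
        simpa [dec] using (congrArg Subtype.val he).symm
      rw [this]
      exact add_mem (nsmul_mem (AddSubgroup.subset_closure (by simp)) _)
        (nsmul_mem (AddSubgroup.subset_closure (by simp)) _)
    have t2 : p ∣ Nat.card T := hw ▸ AddSubgroup.addOrderOf_dvd_natCard T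
      (AddSubgroup.subset_closure (by simp))
    have t3 : 9 ∣ Nat.card T := k1 ▸ AddSubgroup.card_dvd_of_le t1
    have c : Nat.Coprime 9 p :=
      ((Nat.coprime_primes Nat.prime_three hp).2 (by omega)).pow_left 2
    exact AddSubgroup.eq_top_of_le_card T
      (h ▸ Nat.le_of_dvd Nat.card_pos (c.mul_dvd_of_dvd_of_dvd t3 t2))

theorem main (N : ℕ) : ∀ (G : Type) [AddCommGroup G] [Finite G], Nat.card G = N → N % 2 = 1 →
    N ≠ 3 → N ≠ 5 → N ≠ 9 → SS G := by
  induction N using Nat.strong_induction_on with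
  | _ N ih =>
  intro G _ _ hN h1 h3 h5 h9
  have step : ∀ H : AddSubgroup G, 1 < Nat.card H → SS H → SCM H → N ≠ 3 * Nat.card H →
      N ≠ 5 * Nat.card H → N ≠ 9 * Nat.card H → SS G := by
    intro H a1 a2 a3 a4 a5 a6
    have e := hN ▸ AddSubgroup.card_eq_card_quotient_mul_card_addSubgroup H
    have p : 0 < Nat.card (G ⧸ H) := Nat.card_pos
    refine ext H a2 a3 (ih _ (by nlinarith) _ rfl ?_ ?_ ?_ ?_)
    · exact Nat.odd_iff.1 (Nat.Odd.of_mul_left (e ▸ Nat.odd_iff.2 h1))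
    all_goals intro q; rw [q] at e; omega
  by_cases hc : IsAddCyclic G
  · exact ss_cyc hc (by omega) (by omega) (by omega) (by omega)
  have f3 : Fact (Nat.Prime 3) := ⟨by norm_num⟩
  have f5 : Fact (Nat.Prime 5) := ⟨by norm_num⟩
  by_cases h7 : ∃ p, p.Prime ∧ 7 ≤ p ∧ p ∣ N
  · obtain ⟨p, p1, p2, p3⟩ := h7
    have := Fact.mk p1
    obtain ⟨H, c, -⟩ := sub_ex p 0 1 (⊥ : AddSubgroup G) (by simp) (by simpa [hN] using p3)
      (by norm_num)
    rw [pow_one] at c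
    have sq : ∀ a, a = 5 ∨ a = 9 → N ∣ a * p → ∀ r, r.Prime → r ≠ 3 → ¬ r ^ 2 ∣ Nat.card G := by
      intro a ha e r r1 r3 r2
      have r4 : r ^ 2 ∣ a * p := r2.trans (hN ▸ e)
      by_cases rp : r = p
      · subst rp
        have := Nat.dvd_of_mul_dvd_mul_right r1.pos (sq r ▸ r4)
        rcases ha with rfl | rfl
        · have := Nat.le_of_dvd (by norm_num) this; omega
        · exact r3 ((Nat.prime_dvd_prime_iff_eq r1 Nat.prime_three).1
            (r1.dvd_of_dvd_pow (n := 2) this))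
      · have := (((Nat.coprime_primes r1 p1).2 rp).pow_left 2).dvd_of_dvd_mul_right r4
        rcases ha with rfl | rfl
        · have r5 := Nat.le_of_dvd (by norm_num) this
          have := r1.two_le
          have : r ≤ 2 := by nlinarith
          interval_cases r; omega
        · exact r3 ((Nat.prime_dvd_prime_iff_eq r1 Nat.prime_three).1
            (r1.dvd_of_dvd_pow (n := 2) ((dvd_pow_self r two_ne_zero).trans this)))
    have d9 : ∀ a, a = 3 ∨ a = 5 → N = a * p → ¬ 3 ^ 2 ∣ Nat.card (Tn G 3) := by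
      intro a ha e r
      have r1 := r.trans (AddSubgroup.card_addSubgroup_dvd_card _)
      have := p1.eq_one_or_self_of_dvd 3
      rw [hN, e] at r1
      rcases ha with rfl | rfl <;> omega
    by_cases e9 : N = 9 * p
    · exact ss_9p p1 p2 (hN.trans e9) ((dich (sq 9 (by simp) e9.dvd)).resolve_left hc)
    have q2 := p1.eq_one_or_self_of_dvd 2
    have q3 := p1.eq_one_or_self_of_dvd 3
    refine step H (by omega) (ss_cyc (isAddCyclic_of_prime_card c) (by omega) (by omega) (by omega)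
      (by omega)) (scm_cop ?_) (fun e => ?_) (fun e => ?_) (by rwa [c])
    · rw [c]
      exact Nat.Coprime.mul_right ((Nat.coprime_primes p1 Nat.prime_two).2 (by omega))
        ((Nat.coprime_primes p1 Nat.prime_three).2 (by omega))
    · rw [c] at e
      exact d9 3 (by simp) e ((dich (sq 9 (by simp) ⟨3, by omega⟩)).resolve_left hc)
    · rw [c] at e
      exact d9 5 (by simp) e ((dich (sq 5 (by simp) e.dvd)).resolve_left hc)
  by_cases hb : N ∈ [25, 27, 45, 75, 81, 125, 135, 225, 243]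
  · exact ss_base (hN ▸ hb)
  simp only [List.mem_cons, List.not_mem_nil, or_false, not_or] at hb
  by_cases h25 : 5 ^ 2 ∣ N
  · obtain ⟨H, c, -⟩ := sub_ex 5 0 2 (⊥ : AddSubgroup G) (by simp) (hN ▸ h25) (by norm_num)
    exact step H (by omega) (ss_base (by simp [c])) (scm_cop (by rw [c]; norm_num)) (by omega)
      (by omega) (by omega)
  have pr : ∀ r, r.Prime → r ∣ N → r = 3 ∨ r = 5 := by
    intro r r1 r2
    have : ¬ 7 ≤ r := fun e => h7 ⟨r, r1, e, r2⟩
    have : r < 7 := by omega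
    interval_cases r <;> first | omega | exact absurd r1 (by norm_num)
  have d := (dich (G := G) fun r r1 r3 r2 => by
    rw [hN] at r2
    rcases pr r r1 ((dvd_pow_self r two_ne_zero).trans r2) with rfl | rfl
    exacts [r3 rfl, h25 r2]).resolve_left hc
  obtain ⟨K, k1, k2⟩ := exK d
  by_cases h27 : 3 ^ 3 ∣ N
  · obtain ⟨H, c, hK⟩ := sub_ex 3 2 3 K k1 (hN ▸ h27) (by norm_num)
    exact step H (by omega) (ss_base (by simp [c])) (scm_27 c (not_cyc H K k1 k2 hK)) (by omega)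
      (by omega) (by omega)
  exfalso
  obtain ⟨a, ha⟩ : 9 ∣ N := hN ▸ k1 ▸ AddSubgroup.card_addSubgroup_dvd_card K
  obtain ⟨r, r1, b, rfl⟩ := Nat.exists_prime_and_dvd (n := a) (by omega)
  rcases pr r r1 ⟨9 * b, by rw [ha]; ring⟩ with rfl | rfl
  · omega
  obtain ⟨s, s1, c, rfl⟩ := Nat.exists_prime_and_dvd (n := b) (by omega)
  rcases pr s s1 ⟨45 * c, by rw [ha]; ring⟩ with rfl | rfl <;> omega

end Pool.Agent.H.MP_b9302b_co
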